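import Mathlib

/-!
# Moduli of wildly ramified covers of the projective line

`Tuple P S`, `Cart`, `IsCover`, `IsFamily`, `Pt`, `Space`: the data of the problem, morphisms over a
change of base, covers over algebraically closed fields, objects of the moduli stack, its points,
and its topological space.
-/

open CategoryTheory Limits AlgebraicGeometry

set_option backward.isDefEq.respectTransparency false

noncomputable section

universe u

namespace Pool.Agent.W513.Mod

attribute [local instance] MvPolynomial.gradedAlgebra

/-- The projective line over a field, with its structure morphism below. -/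
def P1 (K : Type u) [Field K] : Scheme.{u} :=
  Proj (MvPolynomial.homogeneousSubmodule (Fin 2) K)

/-- The structure morphism of the projective line. -/
def P1str (K : Type u) [Field K] : P1 K ⟶ Spec (.of K) :=
  Proj.toSpecZero (MvPolynomial.homogeneousSubmodule (Fin 2) K) ≫
    Spec.map (CommRingCat.ofHom
      (algebraMap K (MvPolynomial.homogeneousSubmodule (Fin 2) K 0)))

/-- The point of the spectrum of a field. -/
abbrev pt (K : Type u) [Field K] : Spec (CommRingCat.of K) := IsLocalRing.closedPoint K

/-- A tuple `(X → S, B → X, Y → X, P-action on Y over X)` over a scheme `S`. -/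
structure Tuple (P : Type) [Group P] (S : Scheme.{u}) where
  /-- the base curve -/
  X : Scheme.{u}
  /-- the branch divisor -/
  B : Scheme.{u}
  /-- the covering curve -/
  Y : Scheme.{u}
  /-- the structure morphism of the base curve -/
  f : X ⟶ S
  /-- the inclusion of the branch divisor -/
  i : B ⟶ X
  /-- the covering -/
  π : Y ⟶ X
  /-- the action of the group -/
  act : P → (Y ⟶ Y)
  act_one : act 1 = 𝟙 Y
  act_mul : ∀ g h, act (g * h) = act h ≫ act g
  act_π : ∀ g, act g ≫ π = π

/-- A morphism of tuples over a morphism `a` of the base schemes: `E` is, through these maps,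
the base change of `D` along `a`.  For `a = 𝟙 S` these are the isomorphisms of tuples. -/
structure Cart {P : Type} [Group P] {T S : Scheme.{u}} (a : T ⟶ S) (E : Tuple P T)
    (D : Tuple P S) where
  /-- the map of base curves -/
  x : E.X ⟶ D.X
  /-- the map of branch divisors -/
  b : E.B ⟶ D.B
  /-- the map of covering curves -/
  y : E.Y ⟶ D.Y
  hX : IsPullback x E.f D.f a
  hB : IsPullback b E.i D.i x
  hY : IsPullback y E.π D.π x
  equi : ∀ g, E.act g ≫ y = y ≫ D.act g

/-- The exponent of the different of `π` at `y`: the length of the module of differentials of the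
local ring of `Y` at `y` over the local ring of `X` at `π y`. -/
def diffExp {Y X : Scheme.{u}} (π : Y ⟶ X) (y : Y) : ℕ∞ :=
  letI := (π.stalkMap y).hom.toAlgebra
  Module.length (Y.presheaf.stalk y) (Ω[Y.presheaf.stalk y⁄X.presheaf.stalk (π y)])

/-- The degree of the different above the point `x`. -/
def delta {Y X : Scheme.{u}} (π : Y ⟶ X) (x : X) : ℕ∞ :=
  ∑ᶠ (y : Y) (_ : π y = x), diffExp π y

/-- `D` is a `P`-Galois cover of the projective line over the algebraically closed field `K` with
branch locus `B` and ramification configuration `η`.  Points of curves are the `K`-points. -/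
structure IsCover {P : Type} [Group P] (K : Type u) [Field K] [IsAlgClosed K] (η : Multiset ℕ)
    (D : Tuple P (Spec (.of K))) : Prop where
  /-- the base curve is the projective line -/
  genus : ∃ e : D.X ≅ P1 K, e.hom ≫ P1str K = D.f
  /-- the branch divisor is a closed subscheme, finite étale over `K` -/
  closedB : IsClosedImmersion D.i
  finiteB : IsFinite (D.i ≫ D.f)
  etaleB : Etale (D.i ≫ D.f)
  /-- the cover is finite and flat -/
  finite : IsFinite D.π
  flat : Flat D.π
  /-- the covering curve is smooth and connected -/
  smooth : SmoothOfRelativeDimension 1 (D.π ≫ D.f)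
  conn : ConnectedSpace D.Y
  /-- the cover is étale outside the branch locus -/
  etale : ∀ y : D.Y, D.π y ∉ Set.range D.i → ∃ V : D.Y.Opens, y ∈ V ∧ Etale (V.ι ≫ D.π)
  /-- the group is simply transitive on the fibres over the points outside the branch locus -/
  trans : ∀ y y' : Spec (.of K) ⟶ D.Y, y ≫ D.π ≫ D.f = 𝟙 _ → y' ≫ D.π = y ≫ D.π →
    (∀ b : Spec (.of K) ⟶ D.B, b ≫ D.i ≠ y ≫ D.π) → ∃! g : P, y ≫ D.act g = y'
  /-- above a branch point the inertia groups are not trivial -/
  ram : ∀ b : Spec (.of K) ⟶ D.B, b ≫ D.i ≫ D.f = 𝟙 _ →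
    ∃ g : P, g ≠ 1 ∧ ∃ y : Spec (.of K) ⟶ D.Y, y ≫ D.π = b ≫ D.i ∧ y ≫ D.act g = y
  /-- the degrees of the different above the branch points form the multiset `η` -/
  conf : ∃ s : Finset {b : Spec (.of K) ⟶ D.B // b ≫ D.i ≫ D.f = 𝟙 _}, (∀ b, b ∈ s) ∧
    s.val.map (fun b => delta D.π ((b.1 ≫ D.i) (pt K))) = η.map (fun n => (n : ℕ∞))

/-- `D` is an object over `S` of the moduli stack of `P`-covers of genus zero curves with
ramification configuration `η`. -/
structure IsFamily {P : Type} [Group P] (η : Multiset ℕ) {S : Scheme.{u}} (D : Tuple P S) :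
    Prop where
  smoothX : Smooth D.f
  properX : IsProper D.f
  closedB : IsClosedImmersion D.i
  finiteB : IsFinite (D.i ≫ D.f)
  etaleB : Etale (D.i ≫ D.f)
  finite : IsFinite D.π
  flat : Flat D.π
  /-- all geometric fibres are covers with configuration `η` -/
  fib : ∀ (K : Type u) [Field K] [IsAlgClosed K] (a : Spec (.of K) ⟶ S)
    (E : Tuple P (Spec (.of K))), Nonempty (Cart a E D) → IsCover K η E

/-- A geometric point of the moduli stack over `k`. -/
structure Pt (k : Type u) [Field k] (P : Type) [Group P] (η : Multiset ℕ) where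
  /-- the algebraically closed field -/
  K : Type u
  [field : Field K]
  [closed : IsAlgClosed K]
  /-- the structure of a `k`-algebra on `K` -/
  str : Spec (.of K) ⟶ Spec (.of k)
  /-- the cover -/
  D : Tuple P (Spec (.of K))
  cover : IsCover K η D

attribute [instance] Pt.field Pt.closed

variable {k : Type u} [Field k] {P : Type} [Group P] {η : Multiset ℕ}

/-- `q` is the base change of `p` to a larger field (over `k`), up to isomorphism. -/
def Pt.Ext (p q : Pt k P η) : Prop :=
  ∃ a : Spec (.of q.K) ⟶ Spec (.of p.K), a ≫ p.str = q.str ∧ Nonempty (Cart a q.D p.D)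

variable (k P η) in
/-- The set of points of the moduli stack: classes of geometric points for the equivalence relation
generated by isomorphisms and extensions of the base field. -/
def Space : Type (u + 1) := Quot (Pt.Ext (k := k) (P := P) (η := η))

/-- The point of the moduli space given by a cover. -/
def Space.mk (p : Pt k P η) : Space k P η := Quot.mk _ p

/-- `V` is the set of points of `S` at which the member of the family `D` belongs to `U`. -/
def Adapted (U : Set (Space k P η)) {S : Scheme.{u}} (s : S ⟶ Spec (.of k)) (D : Tuple P S)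
    (V : Set S) : Prop :=
  ∀ (p : Pt k P η) (a : Spec (.of p.K) ⟶ S), a ≫ s = p.str → Nonempty (Cart a p.D D) →
    (Space.mk p ∈ U ↔ a (pt p.K) ∈ V)

/-- The topology of the moduli stack: a set of points is open when its members in every family over
every `k`-scheme form an open set. -/
instance : TopologicalSpace (Space k P η) where
  IsOpen U := ∀ (S : Scheme.{u}) (s : S ⟶ Spec (.of k)) (D : Tuple P S), IsFamily η D →
    ∃ V : Set S, IsOpen V ∧ Adapted U s D V
  isOpen_univ S s D _ := ⟨Set.univ, isOpen_univ, fun _ _ _ _ => by simp⟩
  isOpen_inter U U' h h' S s D hD := by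
    obtain ⟨V, hV, h1⟩ := h S s D hD
    obtain ⟨V', hV', h2⟩ := h' S s D hD
    refine ⟨V ∩ V', hV.inter hV', fun p a h3 h4 => ?_⟩
    rw [Set.mem_inter_iff, Set.mem_inter_iff, h1 p a h3 h4, h2 p a h3 h4]
  isOpen_sUnion 𝒰 h S s D hD := by
    choose! V hV using fun U hU => h U hU S s D hD
    refine ⟨⋃ U ∈ 𝒰, V U, isOpen_biUnion fun U hU => (hV U hU).1, fun p a h3 h4 => ?_⟩
    simp only [Set.mem_sUnion, Set.mem_iUnion, exists_prop]
    exact exists_congr fun U => and_congr_right fun hU => (hV U hU).2 p a h3 h4

/-- The same cover with the action of the group changed by an automorphism of the group. -/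
def Tuple.relabel {S : Scheme.{u}} (α : P ≃* P) (D : Tuple P S) : Tuple P S where
  X := D.X
  B := D.B
  Y := D.Y
  f := D.f
  i := D.i
  π := D.π
  act g := D.act (α g)
  act_one := by rw [map_one, D.act_one]
  act_mul g h := by rw [map_mul, D.act_mul]
  act_π g := D.act_π _

lemma IsCover.relabel {K : Type u} [Field K] [IsAlgClosed K] {D : Tuple P (Spec (.of K))}
    (h : IsCover K η D) (α : P ≃* P) : IsCover K η (D.relabel α) where
  genus := h.genus
  closedB := h.closedB
  finiteB := h.finiteB
  etaleB := h.etaleB
  finite := h.finite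
  flat := h.flat
  smooth := h.smooth
  conn := h.conn
  etale := h.etale
  trans y y' h1 h2 h3 := by
    obtain ⟨g, hg, hu⟩ := h.trans y y' h1 h2 h3
    refine ⟨α.symm g, ?_, fun g' hg' => ?_⟩
    · change y ≫ D.act (α (α.symm g)) = y'
      rw [α.apply_symm_apply, hg]
    · rw [← hu (α g') hg', α.symm_apply_apply]
  ram b hb := by
    obtain ⟨g, hg, y, h1, h2⟩ := h.ram b hb
    refine ⟨α.symm g, fun h3 => hg ?_, y, h1, ?_⟩
    · rw [← α.apply_symm_apply g, h3, map_one]
    · change y ≫ D.act (α (α.symm g)) = y
      rw [α.apply_symm_apply, h2]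
  conf := h.conf

/-- The same point with the action changed by an automorphism of the group. -/
def Pt.relabel (α : P ≃* P) (p : Pt k P η) : Pt k P η where
  K := p.K
  str := p.str
  D := p.D.relabel α
  cover := p.cover.relabel α

end Pool.Agent.W513.Mod
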