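import Mathlib
import Pool.Agent.W513.Mod.Defs

/-!
# The rings of the covers

`B1 R q = R[s]/(s² + q s + q)`, `BB R q d = B1 R q [v]/(v² + v + d)`, `RR K = K[u]` with `u + 1`
inverted.
-/

open CategoryTheory Limits AlgebraicGeometry Polynomial

set_option backward.isDefEq.respectTransparency false

noncomputable section

universe u

namespace Pool.Agent.W513.Mod

/-- `R[s]/(s² + q s + q)`. -/
abbrev B1 (R : Type u) [CommRing R] (q : R) : Type u := AdjoinRoot (X ^ 2 + C q * X + C q : R[X])

/-- `R[s, v]/(s² + q s + q, v² + v + d)`. -/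
abbrev BB (R : Type u) [CommRing R] (q d : R) : Type u :=
  AdjoinRoot (X ^ 2 + X + C (algebraMap R (B1 R q) d) : (B1 R q)[X])

/-- the element `s` -/
def sB {R : Type u} [CommRing R] (q d : R) : BB R q d :=
  algebraMap (B1 R q) (BB R q d) (AdjoinRoot.root _)

/-- the element `v` -/
def vB {R : Type u} [CommRing R] (q d : R) : BB R q d := AdjoinRoot.root _

/-- `K[u]` with `u + 1` inverted -/
abbrev RR (K : Type u) [Field K] : Type u := Localization.Away (X + 1 : K[X])

/-- the coordinate `u` -/
def uR (K : Type u) [Field K] : RR K := algebraMap K[X] (RR K) X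

/-- the inverse of `u + 1` -/
def wR (K : Type u) [Field K] : RR K := IsLocalization.Away.invSelf (X + 1 : K[X])

/-- the rational function field -/
abbrev KK (K : Type u) [Field K] : Type u := FractionRing K[X]

/-- the coordinate `x` -/
def xK (K : Type u) [Field K] : KK K := algebraMap K[X] (KK K) X

/-- the values of the coordinate `u` of the chart around `0`, `1`, `∞` -/
def uK (K : Type u) [Field K] : Fin 3 → KK K := ![xK K, xK K + 1, (xK K)⁻¹]

/-- the group `(ℤ/2)²` -/
abbrev P4 : Type := Multiplicative (ZMod 2 × ZMod 2)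

/-- the three nontrivial characters of `(ℤ/2)²` -/
def chi (n : Fin 3) (g : P4) : ZMod 2 :=
  ![g.toAdd.1, g.toAdd.2, g.toAdd.1 + g.toAdd.2] n

end Pool.Agent.W513.Mod
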