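import Mathlib
import Pool.Agent.W513.Mod.Defs

/-!
# Fixed points in families of covers
-/

open CategoryTheory Limits AlgebraicGeometry

set_option backward.isDefEq.respectTransparency false

noncomputable section

universe u

namespace Pool.Agent.W513.Mod

lemma exists_section {K : Type u} [Field K] [IsAlgClosed K] {Z : Scheme.{u}}
    (h : Z ⟶ Spec (.of K)) [LocallyOfFiniteType h] [hZ : Nonempty Z] :
    ∃ z : Spec (.of K) ⟶ Z, z ≫ h = 𝟙 _ := by
  have hJ : JacobsonSpace Z := LocallyOfFiniteType.jacobsonSpace h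
  have h1 : (closedPoints Z).Nonempty := by
    have h2 := JacobsonSpace.closure_inter_closedPoints_eq_closure (X := Z) (S := Set.univ)
      isOpen_univ.isLocallyClosed
    rw [Set.univ_inter, closure_univ] at h2
    by_contra h3
    rw [Set.not_nonempty_iff_eq_empty] at h3
    rw [h3, closure_empty] at h2
    exact (Set.univ_nonempty (α := Z)).ne_empty h2.symm
  obtain ⟨x, hx⟩ := h1
  exact ⟨pointOfClosedPoint h x hx, pointOfClosedPoint_comp h x hx⟩

lemma exists_lift {K : Type u} [Field K] [IsAlgClosed K] {T S : Scheme.{u}} (t : T ⟶ S)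
    [LocallyOfFiniteType t] (a : Spec (.of K) ⟶ S) (h : a (pt K) ∈ Set.range t) :
    ∃ z : Spec (.of K) ⟶ T, z ≫ t = a := by
  obtain ⟨x, hx⟩ := h
  obtain ⟨w, -, -⟩ := Scheme.Pullback.exists_preimage_pullback (f := t) (g := a) x (pt K) hx
  have : Nonempty ↥(pullback t a) := ⟨w⟩
  obtain ⟨z, hz⟩ := exists_section (pullback.snd t a)
  refine ⟨z ≫ pullback.fst t a, ?_⟩
  rw [Category.assoc, pullback.condition, reassoc_of% hz]

variable {P : Type} [Group P] {S : Scheme.{u}} (D : Tuple P S) (g : P)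

/-- the map whose equaliser with the identity is the fixed point scheme -/
def fixMap : D.Y ⟶ pullback D.π D.π :=
  pullback.lift (D.act g) (𝟙 _) (by rw [D.act_π, Category.id_comp])

/-- the fixed point scheme of `g` -/
def FixS : Scheme.{u} := pullback (fixMap D g) (pullback.diagonal D.π)

/-- its inclusion -/
def fixι : FixS D g ⟶ D.Y := pullback.fst _ _

instance [IsSeparated D.π] : IsClosedImmersion (fixι D g) := by
  unfold fixι
  infer_instance

lemma fix_snd : (pullback.snd (fixMap D g) (pullback.diagonal D.π)) = fixι D g := by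
  have h := congrArg (fun z => z ≫ pullback.snd D.π D.π)
    (pullback.condition (f := fixMap D g) (g := pullback.diagonal D.π))
  simp only [fixMap, Category.assoc, pullback.lift_snd, pullback.diagonal_snd,
    Category.comp_id] at h
  exact h.symm

lemma fixι_act : fixι D g ≫ D.act g = fixι D g := by
  have h := congrArg (fun z => z ≫ pullback.fst D.π D.π)
    (pullback.condition (f := fixMap D g) (g := pullback.diagonal D.π))
  simp only [fixMap, Category.assoc, pullback.lift_fst, pullback.diagonal_fst,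
    Category.comp_id] at h
  exact h.trans (fix_snd D g)

/-- lifting to the fixed point scheme -/
def fixLift {T : Scheme.{u}} (y : T ⟶ D.Y) (h : y ≫ D.act g = y) : T ⟶ FixS D g :=
  pullback.lift y y (by
    apply pullback.hom_ext
    · simp [fixMap, h]
    · simp [fixMap])

lemma fixLift_ι {T : Scheme.{u}} (y : T ⟶ D.Y) (h : y ≫ D.act g = y) :
    fixLift D g y h ≫ fixι D g = y := pullback.lift_fst _ _ _

/-- `g` fixes a point of `D` over `a` -/
def FixPt {T : Scheme.{u}} (a : T ⟶ S) (y : T ⟶ D.Y) : Prop :=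
  y ≫ D.π ≫ D.f = a ∧ y ≫ D.act g = y

variable {D g}

section cart

variable {T : Scheme.{u}} {a : T ⟶ S} {E : Tuple P T} (c : Cart a E D)
include c

lemma Cart.fix_push {y : T ⟶ E.Y} (h : FixPt E g (𝟙 T) y) : FixPt D g a (y ≫ c.y) := by
  refine ⟨?_, ?_⟩
  · rw [Category.assoc, c.hY.w_assoc, c.hX.w, reassoc_of% h.1]
  · rw [Category.assoc, ← c.equi, reassoc_of% h.2]

lemma Cart.fix_pull {y : T ⟶ D.Y} (h : FixPt D g a y) :
    ∃ y' : T ⟶ E.Y, FixPt E g (𝟙 T) y' ∧ y' ≫ c.y = y := by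
  let x' : T ⟶ E.X := c.hX.lift (y ≫ D.π) (𝟙 T) (by rw [Category.assoc, h.1, Category.id_comp])
  have hx1 : x' ≫ c.x = y ≫ D.π := c.hX.lift_fst _ _ _
  have hx2 : x' ≫ E.f = 𝟙 T := c.hX.lift_snd _ _ _
  let y' : T ⟶ E.Y := c.hY.lift y x' hx1.symm
  have hy1 : y' ≫ c.y = y := c.hY.lift_fst _ _ _
  have hy2 : y' ≫ E.π = x' := c.hY.lift_snd _ _ _
  refine ⟨y', ⟨?_, ?_⟩, hy1⟩
  · rw [reassoc_of% hy2, hx2]
  · apply c.hY.hom_ext
    · rw [Category.assoc, c.equi, reassoc_of% hy1, h.2, hy1]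
    · rw [Category.assoc, E.act_π]

lemma Cart.eq_of_push {y y' : T ⟶ E.Y} (h : y ≫ E.π ≫ E.f = 𝟙 T) (h' : y' ≫ E.π ≫ E.f = 𝟙 T)
    (e : (y ≫ c.y) ≫ D.π = (y' ≫ c.y) ≫ D.π) : y ≫ E.π = y' ≫ E.π := by
  apply c.hX.hom_ext
  · rw [Category.assoc, Category.assoc, ← c.hY.w, ← Category.assoc, ← Category.assoc]
    exact e
  · rw [Category.assoc, Category.assoc, h, h']

end cart

/-- `g` has a fixed point -/
def HasFix (g : P) {K : Type u} [Field K] (D : Tuple P (Spec (.of K))) : Prop :=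
  ∃ y : Spec (.of K) ⟶ D.Y, FixPt D g (𝟙 _) y

/-- `g` has fixed points above two different points of `X` -/
def HasFix2 (g : P) {K : Type u} [Field K] (D : Tuple P (Spec (.of K))) : Prop :=
  ∃ y y' : Spec (.of K) ⟶ D.Y, FixPt D g (𝟙 _) y ∧ FixPt D g (𝟙 _) y' ∧ y ≫ D.π ≠ y' ≫ D.π

lemma HasFix_iff {K : Type u} [Field K] [IsAlgClosed K] {a : Spec (.of K) ⟶ S}
    {E : Tuple P (Spec (.of K))} (c : Cart a E D) [IsFinite D.π] [LocallyOfFiniteType D.f] :
    HasFix g E ↔ a (pt K) ∈ Set.range (fixι D g ≫ D.π ≫ D.f) := by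
  constructor
  · rintro ⟨y, hy⟩
    have h := c.fix_push hy
    refine ⟨fixLift D g _ h.2 (pt K), ?_⟩
    rw [← Scheme.Hom.comp_apply, ← Category.assoc, fixLift_ι, h.1]
  · intro h
    obtain ⟨z, hz⟩ := exists_lift _ a h
    obtain ⟨y', hy', -⟩ := c.fix_pull (g := g) (y := z ≫ fixι D g)
      ⟨by simpa using hz, by rw [Category.assoc, fixι_act]⟩
    exact ⟨y', hy'⟩

lemma isClosed_fix [IsFinite D.π] [IsProper D.f] :
    IsClosed (Set.range (fixι D g ≫ D.π ≫ D.f)) := by
  have : IsProper (fixι D g ≫ D.π ≫ D.f) := inferInstance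
  exact (fixι D g ≫ D.π ≫ D.f).isClosedMap.isClosed_range

end Pool.Agent.W513.Mod
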