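import Mathlib
import Pool.Agent.W513.Mod.Fix

/-!
# Pairs of fixed points above different branch points
-/

open CategoryTheory Limits AlgebraicGeometry

set_option backward.isDefEq.respectTransparency false

noncomputable section

universe u

namespace Pool.Agent.W513.Mod

variable {P : Type} [Group P] {S : Scheme.{u}} (D : Tuple P S) (g : P)

/-- pairs of a point of `B` and a fixed point above it -/
def BF : Scheme.{u} := pullback (fixι D g ≫ D.π) D.i

/-- the fixed point -/
def BFy : BF D g ⟶ D.Y := pullback.fst (fixι D g ≫ D.π) D.i ≫ fixι D g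

/-- the branch point -/
def BFb : BF D g ⟶ D.B := pullback.snd (fixι D g ≫ D.π) D.i

lemma BF_w : BFy D g ≫ D.π = BFb D g ≫ D.i := by
  rw [BFy, BFb, Category.assoc, pullback.condition]

/-- pairs of such pairs -/
def BF2 : Scheme.{u} := pullback (BFb D g ≫ D.i ≫ D.f) (BFb D g ≫ D.i ≫ D.f)

/-- the pair of branch points -/
def BFm : BF2 D g ⟶ pullback (D.i ≫ D.f) (D.i ≫ D.f) :=
  pullback.lift (pullback.fst _ _ ≫ BFb D g) (pullback.snd _ _ ≫ BFb D g) (by
    rw [Category.assoc, Category.assoc]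
    exact pullback.condition)

/-- the structure map -/
def BF2s : BF2 D g ⟶ S := pullback.fst _ _ ≫ BFb D g ≫ D.i ≫ D.f

lemma BF2s' : BF2s D g = pullback.snd _ _ ≫ BFb D g ≫ D.i ≫ D.f := pullback.condition

/-- the points of the base over which there are two different branch points fixed by `g` -/
def Two : Set S :=
  (BF2s D g) '' ((BFm D g) ⁻¹' (Set.range (pullback.diagonal (D.i ≫ D.f)))ᶜ)

instance [IsClosedImmersion D.i] [IsFinite D.π] : IsFinite (BFb D g) := by
  unfold BFb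
  infer_instance

instance [IsClosedImmersion D.i] [IsFinite D.π] [IsFinite (D.i ≫ D.f)] :
    IsFinite (BF2s D g) := by
  unfold BF2s
  infer_instance

lemma isClosed_Two [IsClosedImmersion D.i] [IsFinite D.π] [IsFinite (D.i ≫ D.f)]
    [Etale (D.i ≫ D.f)] : IsClosed (Two D g) := by
  have h1 : IsOpen (Set.range (pullback.diagonal (D.i ≫ D.f))) :=
    (pullback.diagonal (D.i ≫ D.f)).isOpenEmbedding.isOpen_range
  have h2 : IsClosed ((BFm D g) ⁻¹' (Set.range (pullback.diagonal (D.i ≫ D.f)))ᶜ) :=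
    (h1.isClosed_compl).preimage (BFm D g).continuous
  exact (BF2s D g).isClosedMap _ h2

variable {D g}

lemma HasFix2_iff {K : Type u} [Field K] [IsAlgClosed K] {a : Spec (.of K) ⟶ S}
    {E : Tuple P (Spec (.of K))} (c : Cart a E D) [IsFinite D.π] [IsClosedImmersion D.i]
    [IsFinite (D.i ≫ D.f)] [Etale (D.i ≫ D.f)]
    (hB : ∀ y, FixPt E g (𝟙 _) y → ∃ b : Spec (.of K) ⟶ E.B, b ≫ E.i = y ≫ E.π) :
    HasFix2 g E ↔ a (pt K) ∈ Two D g := by
  constructor
  · rintro ⟨y, y', hy, hy', hne⟩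
    obtain ⟨b, hb⟩ := hB y hy
    obtain ⟨b', hb'⟩ := hB y' hy'
    have key : ∀ (y : Spec (.of K) ⟶ E.Y) (hy : FixPt E g (𝟙 _) y) (b : Spec (.of K) ⟶ E.B)
        (_ : b ≫ E.i = y ≫ E.π), ∃ z : Spec (.of K) ⟶ BF D g, z ≫ BFy D g = y ≫ c.y ∧
          z ≫ BFb D g = b ≫ c.b := by
      intro y hy b hb
      have h := c.fix_push hy
      let z : Spec (.of K) ⟶ BF D g := pullback.lift (fixLift D g _ h.2) (b ≫ c.b) (by
        rw [← Category.assoc, fixLift_ι, Category.assoc, c.hY.w, Category.assoc, c.hB.w,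
          reassoc_of% hb])
      refine ⟨z, ?_, pullback.lift_snd _ _ _⟩
      rw [BFy, ← Category.assoc, pullback.lift_fst, fixLift_ι]
    obtain ⟨z, hz1, hz2⟩ := key y hy b hb
    obtain ⟨z', hz1', hz2'⟩ := key y' hy' b' hb'
    have hs : z ≫ BFb D g ≫ D.i ≫ D.f = a := by
      rw [reassoc_of% hz2, reassoc_of% c.hB.w, c.hX.w, reassoc_of% hb, reassoc_of% hy.1]
    have hs' : z' ≫ BFb D g ≫ D.i ≫ D.f = a := by
      rw [reassoc_of% hz2', reassoc_of% c.hB.w, c.hX.w, reassoc_of% hb', reassoc_of% hy'.1]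
    let w : Spec (.of K) ⟶ BF2 D g := pullback.lift z z' (hs.trans hs'.symm)
    have hw1 : w ≫ pullback.fst _ _ = z := pullback.lift_fst _ _ _
    have hw2 : w ≫ pullback.snd _ _ = z' := pullback.lift_snd _ _ _
    refine ⟨w (pt K), ?_, ?_⟩
    · rintro ⟨x, hx⟩
      apply hne
      have hr : Set.range (w ≫ BFm D g) ⊆ Set.range (pullback.diagonal (D.i ≫ D.f)) := by
        rintro _ ⟨p, rfl⟩
        rw [Subsingleton.elim p (pt K)]
        exact ⟨x, by rw [hx]; rfl⟩
      let l := IsOpenImmersion.lift (pullback.diagonal (D.i ≫ D.f)) (w ≫ BFm D g) hr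
      have hl : l ≫ pullback.diagonal (D.i ≫ D.f) = w ≫ BFm D g :=
        IsOpenImmersion.lift_fac _ _ _
      have h1 := congrArg (fun q => q ≫ pullback.fst (D.i ≫ D.f) (D.i ≫ D.f)) hl
      have h2 := congrArg (fun q => q ≫ pullback.snd (D.i ≫ D.f) (D.i ≫ D.f)) hl
      simp only [Category.assoc, pullback.diagonal_fst, pullback.diagonal_snd, Category.comp_id,
        BFm, pullback.lift_fst, pullback.lift_snd, reassoc_of% hw1, reassoc_of% hw2, hz2, hz2']
        at h1 h2
      have h3 : b ≫ c.b = b' ≫ c.b := h1.symm.trans h2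
      apply c.eq_of_push hy.1 hy'.1
      rw [Category.assoc, Category.assoc, c.hY.w, ← Category.assoc, ← Category.assoc, ← hb, ← hb',
        Category.assoc, Category.assoc, ← c.hB.w, reassoc_of% h3]
    · rw [← Scheme.Hom.comp_apply]
      congr 1
      rw [BF2s, reassoc_of% hw1, hs]
  · rintro ⟨e, he, hea⟩
    let V : (BF2 D g).Opens := ⟨(BFm D g) ⁻¹' (Set.range (pullback.diagonal (D.i ≫ D.f)))ᶜ, by
      have h1 : IsClosed (Set.range (pullback.diagonal (D.i ≫ D.f))) :=
        (pullback.diagonal (D.i ≫ D.f)).isClosedEmbedding.isClosed_range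
      exact h1.isOpen_compl.preimage (BFm D g).continuous⟩
    have hV : a (pt K) ∈ Set.range (V.ι ≫ BF2s D g) := ⟨⟨e, he⟩, by
      rw [Scheme.Hom.comp_apply]
      exact hea⟩
    obtain ⟨z, hz⟩ := exists_lift _ a hV
    let w := z ≫ V.ι
    have hw : w ≫ BF2s D g = a := by rw [Category.assoc, hz]
    let z1 := w ≫ pullback.fst (BFb D g ≫ D.i ≫ D.f) (BFb D g ≫ D.i ≫ D.f)
    let z2 := w ≫ pullback.snd (BFb D g ≫ D.i ≫ D.f) (BFb D g ≫ D.i ≫ D.f)
    have hz1 : z1 ≫ BFb D g ≫ D.i ≫ D.f = a := by rw [Category.assoc]; exact hw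
    have hz2 : z2 ≫ BFb D g ≫ D.i ≫ D.f = a := by
      rw [Category.assoc, ← BF2s']
      exact hw
    have hfix : ∀ t : Spec (.of K) ⟶ BF D g, t ≫ BFb D g ≫ D.i ≫ D.f = a →
        FixPt D g a (t ≫ BFy D g) := by
      intro t ht
      refine ⟨?_, ?_⟩
      · rw [Category.assoc, reassoc_of% (BF_w D g), ht]
      · rw [Category.assoc, BFy, Category.assoc, fixι_act]
    obtain ⟨y, hy, hyy⟩ := c.fix_pull (hfix z1 hz1)
    obtain ⟨y', hy', hyy'⟩ := c.fix_pull (hfix z2 hz2)
    refine ⟨y, y', hy, hy', fun heq => ?_⟩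
    have h1 : z1 ≫ BFb D g ≫ D.i = z2 ≫ BFb D g ≫ D.i := by
      have h2 := congrArg (fun q => q ≫ c.x) heq
      simp only [Category.assoc, ← c.hY.w] at h2
      rw [reassoc_of% hyy, reassoc_of% hyy', BF_w] at h2
      exact h2
    have h2 : z1 ≫ BFb D g = z2 ≫ BFb D g := by
      apply (cancel_mono D.i).1
      exact (Category.assoc _ _ _).trans (h1.trans (Category.assoc _ _ _).symm)
    have h3 : w ≫ BFm D g = (z1 ≫ BFb D g) ≫ pullback.diagonal (D.i ≫ D.f) := by
      apply pullback.hom_ext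
      · simp [BFm, z1]
      · simp only [Category.assoc, BFm, pullback.lift_snd, pullback.diagonal_snd,
          Category.comp_id]
        exact h2.symm
    have h4 : (w (pt K)) ∈ V := (z (pt K)).2
    apply h4
    refine ⟨(z1 ≫ BFb D g) (pt K), ?_⟩
    rw [← Scheme.Hom.comp_apply, ← h3, Scheme.Hom.comp_apply]

end Pool.Agent.W513.Mod
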