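import Mathlib
import Pool.Agent.W513.Mod.Fix2

/-!
# Two closed subsets of the moduli space
-/

open CategoryTheory Limits AlgebraicGeometry

set_option backward.isDefEq.respectTransparency false

noncomputable section

universe u

namespace Pool.Agent.W513.Mod

attribute [local instance] MvPolynomial.gradedAlgebra

instance P1_lft (K : Type u) [Field K] : LocallyOfFiniteType (P1str K) := by
  have : Algebra.FiniteType (MvPolynomial.homogeneousSubmodule (Fin 2) K 0)
      (MvPolynomial (Fin 2) K) := by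
    have : IsScalarTower K (MvPolynomial.homogeneousSubmodule (Fin 2) K 0)
        (MvPolynomial (Fin 2) K) := by
      exact IsScalarTower.of_algebraMap_eq (R := K)
        (S := MvPolynomial.homogeneousSubmodule (Fin 2) K 0) (A := MvPolynomial (Fin 2) K)
        fun x => rfl
    exact Algebra.FiniteType.of_restrictScalars_finiteType K
      (MvPolynomial.homogeneousSubmodule (Fin 2) K 0) (MvPolynomial (Fin 2) K)
  have h2 : LocallyOfFiniteType (Spec.map (CommRingCat.ofHom
      (algebraMap K (MvPolynomial.homogeneousSubmodule (Fin 2) K 0)))) := by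
    rw [HasRingHomProperty.Spec_iff (P := @LocallyOfFiniteType)]
    change (algebraMap K (MvPolynomial.homogeneousSubmodule (Fin 2) K 0)).FiniteType
    refine RingHom.FiniteType.of_surjective _ ?_
    rintro ⟨x, hx⟩
    have h3 : x.IsHomogeneous 0 := hx
    refine ⟨x.coeff 0, Subtype.ext ?_⟩
    change MvPolynomial.C (x.coeff 0) = x
    exact (MvPolynomial.totalDegree_eq_zero_iff_eq_C.1
      (Nat.le_zero.1 h3.totalDegree_le)).symm
  exact inferInstanceAs (LocallyOfFiniteType (_ ≫ _))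

variable {P : Type} [Group P] {k : Type u} [Field k] {η : Multiset ℕ}

/-- the identity -/
def Cart.refl {S : Scheme.{u}} (D : Tuple P S) : Cart (𝟙 S) D D where
  x := 𝟙 _
  b := 𝟙 _
  y := 𝟙 _
  hX := IsPullback.of_horiz_isIso ⟨by simp⟩
  hB := IsPullback.of_horiz_isIso ⟨by simp⟩
  hY := IsPullback.of_horiz_isIso ⟨by simp⟩
  equi g := by simp

section

variable {K : Type u} [Field K] [IsAlgClosed K] {D : Tuple P (Spec (.of K))}

lemma IsCover.lft (h : IsCover K η D) : LocallyOfFiniteType D.f := by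
  obtain ⟨e, he⟩ := h.genus
  rw [← he]
  infer_instance

lemma IsCover.over_B (h : IsCover K η D) {g : P} (hg : g ≠ 1) (y : Spec (.of K) ⟶ D.Y)
    (hy : FixPt D g (𝟙 _) y) : ∃ b : Spec (.of K) ⟶ D.B, b ≫ D.i = y ≫ D.π := by
  by_contra hc
  rw [not_exists] at hc
  obtain ⟨g', -, hu⟩ := h.trans y y hy.1 rfl hc
  have h1 := hu g hy.2
  have h2 := hu 1 (by
    change y ≫ D.act 1 = y
    rw [D.act_one, Category.comp_id])
  exact hg (h1.trans h2.symm)

end

lemma HasFix_ext {p q : Pt k P η} (h : p.Ext q) (g : P) : HasFix g q.D ↔ HasFix g p.D := by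
  obtain ⟨a, -, ⟨c⟩⟩ := h
  have := p.cover.finite
  have := p.cover.lft
  rw [HasFix_iff c, HasFix_iff (Cart.refl p.D), Subsingleton.elim (a (pt q.K))
    ((𝟙 (Spec (CommRingCat.of p.K)) : _ ⟶ _) (pt p.K))]

lemma HasFix2_ext {p q : Pt k P η} (h : p.Ext q) (g : P) (hg : g ≠ 1) :
    HasFix2 g q.D ↔ HasFix2 g p.D := by
  obtain ⟨a, -, ⟨c⟩⟩ := h
  have := p.cover.finite
  have := p.cover.closedB
  have := p.cover.finiteB
  have := p.cover.etaleB
  rw [HasFix2_iff c (fun y hy => q.cover.over_B hg y hy),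
    HasFix2_iff (Cart.refl p.D) (fun y hy => p.cover.over_B hg y hy),
    Subsingleton.elim (a (pt q.K)) ((𝟙 (Spec (CommRingCat.of p.K)) : _ ⟶ _) (pt p.K))]

/-- all elements of `P` have fixed points -/
def ZAll (k : Type u) [Field k] (P : Type) [Group P] (η : Multiset ℕ) : Set (Space k P η) :=
  {m | Quot.lift (fun p : Pt k P η => ∀ g : P, g ≠ 1 → HasFix g p.D) (fun _ _ h =>
    propext (forall_congr' fun g => forall_congr' fun _ => (HasFix_ext h g).symm)) m}

/-- some element of `P` has fixed points above two different points -/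
def ZTwo (k : Type u) [Field k] (P : Type) [Group P] (η : Multiset ℕ) : Set (Space k P η) :=
  {m | Quot.lift (fun p : Pt k P η => ∃ g : P, g ≠ 1 ∧ HasFix2 g p.D) (fun _ _ h =>
    propext (exists_congr fun g => and_congr_right fun hg => (HasFix2_ext h g hg).symm)) m}

lemma mk_ZAll (p : Pt k P η) : Space.mk p ∈ ZAll k P η ↔ ∀ g : P, g ≠ 1 → HasFix g p.D :=
  Iff.rfl

lemma mk_ZTwo (p : Pt k P η) : Space.mk p ∈ ZTwo k P η ↔ ∃ g : P, g ≠ 1 ∧ HasFix2 g p.D :=
  Iff.rfl

lemma isClosed_of (Z : Set (Space k P η)) (h : ∀ (S : Scheme.{u}) (s : S ⟶ Spec (.of k))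
    (D : Tuple P S), IsFamily η D → ∃ V : Set S, IsClosed V ∧ Adapted Z s D V) : IsClosed Z := by
  rw [← isOpen_compl_iff]
  intro S s D hD
  obtain ⟨V, hV, hA⟩ := h S s D hD
  refine ⟨Vᶜ, hV.isOpen_compl, fun p a h1 h2 => ?_⟩
  rw [Set.mem_compl_iff, Set.mem_compl_iff, hA p a h1 h2]

lemma isClosed_ZAll : IsClosed (ZAll k P η) := by
  refine isClosed_of _ fun S s D hD => ?_
  have := hD.finite
  have := hD.properX
  refine ⟨⋂ g : P, ⋂ _ : g ≠ 1, Set.range (fixι D g ≫ D.π ≫ D.f),
    isClosed_iInter fun g => isClosed_iInter fun _ => isClosed_fix, fun p a h1 ⟨c⟩ => ?_⟩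
  rw [mk_ZAll]
  simp only [Set.mem_iInter]
  exact forall_congr' fun g => forall_congr' fun _ => HasFix_iff c

lemma isClosed_ZTwo [Finite P] : IsClosed (ZTwo k P η) := by
  refine isClosed_of _ fun S s D hD => ?_
  have := hD.finite
  have := hD.closedB
  have := hD.finiteB
  have := hD.etaleB
  refine ⟨⋃ g : {g : P // g ≠ 1}, Two D g.1,
    isClosed_iUnion_of_finite fun g => isClosed_Two D g.1, fun p a h1 ⟨c⟩ => ?_⟩
  rw [mk_ZTwo]
  simp only [Set.mem_iUnion, Subtype.exists]
  refine exists_congr fun g => ?_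
  rw [exists_prop]
  exact and_congr_right fun hg => HasFix2_iff c (fun y hy => p.cover.over_B hg y hy)

/-- With `|P| = n + 1` and `n` branch points every cover is in one of the two closed sets. -/
lemma union_eq [Fintype P] (hη : Multiset.card η + 1 = Fintype.card P) :
    ZAll k P η ∪ ZTwo k P η = Set.univ := by
  classical
  rw [Set.eq_univ_iff_forall]
  rintro ⟨p⟩
  change Space.mk p ∈ ZAll k P η ∨ Space.mk p ∈ ZTwo k P η
  rw [mk_ZAll, mk_ZTwo, or_iff_not_imp_right]
  intro hne g hg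
  obtain ⟨s, hs, hc⟩ := p.cover.conf
  choose f hf y hy using fun b : {b : Spec (.of p.K) ⟶ p.D.B // b ≫ p.D.i ≫ p.D.f = 𝟙 _} =>
    p.cover.ram b.1 b.2
  have hfix : ∀ b, FixPt p.D (f b) (𝟙 _) (y b) := fun b =>
    ⟨by rw [← Category.assoc, (hy b).1, Category.assoc, b.2], (hy b).2⟩
  have hinj : Function.Injective f := by
    intro b b' hbb
    by_contra hb
    apply hne
    refine ⟨f b, hf b, y b, y b', hfix b, hbb ▸ hfix b', fun h => hb ?_⟩
    have := p.cover.closedB
    rw [(hy b).1, (hy b').1] at h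
    exact Subtype.ext ((cancel_mono _).1 h)
  have hcard : s.card = Multiset.card η := by
    have := congrArg Multiset.card hc
    simpa using this
  have himg : s.image f = Finset.univ.erase 1 := by
    apply Finset.eq_of_subset_of_card_le
    · intro x hx
      obtain ⟨b, -, rfl⟩ := Finset.mem_image.1 hx
      exact Finset.mem_erase.2 ⟨hf b, Finset.mem_univ _⟩
    · rw [Finset.card_image_of_injective _ hinj, Finset.card_erase_of_mem (Finset.mem_univ _),
        Finset.card_univ, hcard, ← hη]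
      simp
  have hgm : g ∈ s.image f := by
    rw [himg]
    exact Finset.mem_erase.2 ⟨hg, Finset.mem_univ _⟩
  obtain ⟨b, -, rfl⟩ := Finset.mem_image.1 hgm
  exact ⟨y b, hfix b⟩

lemma relabel_ZAll (α : P ≃* P) (p : Pt k P η) :
    Space.mk (p.relabel α) ∈ ZAll k P η ↔ Space.mk p ∈ ZAll k P η := by
  rw [mk_ZAll, mk_ZAll]
  constructor
  · intro h g hg
    obtain ⟨y, hy⟩ := h (α.symm g) (fun h1 => hg (by rw [← α.apply_symm_apply g, h1, map_one]))
    have h2 : FixPt p.D (α (α.symm g)) (𝟙 _) y := hy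
    rw [α.apply_symm_apply] at h2
    exact ⟨y, h2⟩
  · intro h g hg
    exact h (α g) (fun h1 => hg (by rw [← α.symm_apply_apply g, h1, map_one]))

lemma relabel_ZTwo (α : P ≃* P) (p : Pt k P η) :
    Space.mk (p.relabel α) ∈ ZTwo k P η ↔ Space.mk p ∈ ZTwo k P η := by
  rw [mk_ZTwo, mk_ZTwo]
  constructor
  · rintro ⟨g, hg, h⟩
    exact ⟨α g, fun h1 => hg (by rw [← α.symm_apply_apply g, h1, map_one]), h⟩
  · rintro ⟨g, hg, y, y', hy, hy', h⟩
    refine ⟨α.symm g, fun h1 => hg (by rw [← α.apply_symm_apply g, h1, map_one]), y, y', ?_, ?_, h⟩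
    · change FixPt p.D (α (α.symm g)) (𝟙 _) y
      rwa [α.apply_symm_apply]
    · change FixPt p.D (α (α.symm g)) (𝟙 _) y'
      rwa [α.apply_symm_apply]

end Pool.Agent.W513.Mod
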