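import Mathlib
import Pool.Agent.W513.Mod.Ring

/-!
# Homomorphisms out of the rings of the covers
-/

open CategoryTheory Limits AlgebraicGeometry Polynomial

set_option backward.isDefEq.respectTransparency false

noncomputable section

universe u

namespace Pool.Agent.W513.Mod

variable {R : Type u} [CommRing R] (q d : R)

lemma sB_eq : (sB q d) ^ 2 + algebraMap R (BB R q d) q * sB q d + algebraMap R (BB R q d) q = 0 := by
  have h := AdjoinRoot.eval₂_root (X ^ 2 + C q * X + C q : R[X])
  simp only [eval₂_add, eval₂_mul, eval₂_pow, eval₂_X, eval₂_C] at h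
  have h2 := congrArg (algebraMap (B1 R q) (BB R q d)) h
  simp only [map_add, map_mul, map_pow, map_zero] at h2
  exact h2

lemma vB_eq : (vB q d) ^ 2 + vB q d + algebraMap R (BB R q d) d = 0 := by
  have h := AdjoinRoot.eval₂_root (X ^ 2 + X + C (algebraMap R (B1 R q) d) : (B1 R q)[X])
  simp only [eval₂_add, eval₂_mul, eval₂_pow, eval₂_X, eval₂_C] at h
  exact h

variable {q d}

lemma BB_lift {T : Type u} [CommRing T] (e : R →+* T) (s0 v0 : T)
    (hs : s0 ^ 2 + e q * s0 + e q = 0) (hv : v0 ^ 2 + v0 + e d = 0) :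
    ∃ ε : BB R q d →+* T, ε.comp (algebraMap R (BB R q d)) = e ∧ ε (sB q d) = s0 ∧
      ε (vB q d) = v0 := by
  let e1 : B1 R q →+* T := AdjoinRoot.lift e s0 (by
    simp only [eval₂_add, eval₂_mul, eval₂_pow, eval₂_X, eval₂_C]
    exact hs)
  have he1 : ∀ x, e1 (algebraMap R (B1 R q) x) = e x := fun x => AdjoinRoot.lift_of _
  let e2 : BB R q d →+* T := AdjoinRoot.lift e1 v0 (by
    simp only [eval₂_add, eval₂_pow, eval₂_X, eval₂_C, he1]
    exact hv)
  have he2 : ∀ x, e2 (algebraMap (B1 R q) (BB R q d) x) = e1 x := fun x => AdjoinRoot.lift_of _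
  refine ⟨e2, ?_, ?_, ?_⟩
  · ext x
    rw [RingHom.comp_apply, IsScalarTower.algebraMap_apply R (B1 R q) (BB R q d), he2, he1]
  · rw [sB, he2]
    exact AdjoinRoot.lift_root _
  · exact AdjoinRoot.lift_root _

lemma BB_ext {T : Type u} [CommRing T] {ε ε' : BB R q d →+* T}
    (h : ε.comp (algebraMap R (BB R q d)) = ε'.comp (algebraMap R (BB R q d)))
    (hs : ε (sB q d) = ε' (sB q d)) (hv : ε (vB q d) = ε' (vB q d)) : ε = ε' := by
  apply AdjoinRoot.ringHom_ext
  · apply AdjoinRoot.ringHom_ext
    · ext x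
      exact congr($h x)
    · exact hs
  · exact hv

instance : Module.Finite R (B1 R q) := by
  have : (X ^ 2 + C q * X + C q : R[X]).Monic := by monicity!
  exact this.finite_adjoinRoot

instance : Module.Free R (B1 R q) := by
  have : (X ^ 2 + C q * X + C q : R[X]).Monic := by monicity!
  exact this.free_adjoinRoot

instance : Module.Finite (B1 R q) (BB R q d) := by
  have : (X ^ 2 + X + C (algebraMap R (B1 R q) d) : (B1 R q)[X]).Monic := by monicity!
  exact this.finite_adjoinRoot

instance : Module.Free (B1 R q) (BB R q d) := by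
  have : (X ^ 2 + X + C (algebraMap R (B1 R q) d) : (B1 R q)[X]).Monic := by monicity!
  exact this.free_adjoinRoot

instance : Module.Finite R (BB R q d) := Module.Finite.trans (B1 R q) (BB R q d)

instance : Module.Free R (BB R q d) := Module.Free.trans (R := R) (S := B1 R q) (M := BB R q d)

end Pool.Agent.W513.Mod
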