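import Mathlib
import Pool.Agent.W513.Mod.Ring2

/-!
# Local properties in charts, action on a normalization
-/

open CategoryTheory Limits AlgebraicGeometry

set_option backward.isDefEq.respectTransparency false

noncomputable section

universe u

namespace Pool.Agent.W513.Mod

/-- A property local at the target, checked on charts. -/
lemma local_target (Q : MorphismProperty Scheme.{u}) [IsZariskiLocalAtTarget Q]
    {X Y : Scheme.{u}} {ι : Type} {W V : ι → Scheme.{u}} (π : Y ⟶ X) (w : ∀ n, W n ⟶ X)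
    (j : ∀ n, V n ⟶ Y) (ρ : ∀ n, V n ⟶ W n) [∀ n, IsOpenImmersion (w n)]
    (hc : ∀ x : X, ∃ n, x ∈ Set.range (w n)) (sq : ∀ n, IsPullback (j n) (ρ n) π (w n))
    (h : ∀ n, Q (ρ n)) : Q π := by
  let 𝒰 : X.OpenCover := Scheme.Cover.mkOfCovers ι W w (fun x => by
    obtain ⟨n, y, hy⟩ := hc x
    exact ⟨n, y, hy⟩)
  refine IsZariskiLocalAtTarget.of_openCover 𝒰 fun n => ?_
  have e := (sq n).isoPullback_inv_snd
  change Q (pullback.snd π (w n))
  rw [← e]
  exact (Q.cancel_left_of_respectsIso _ _).2 (h n)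

/-- A property local at the source, checked on charts. -/
lemma local_source (Q : MorphismProperty Scheme.{u}) [IsZariskiLocalAtSource Q]
    {Y Z : Scheme.{u}} {ι : Type} {V : ι → Scheme.{u}} (π : Y ⟶ Z)
    (j : ∀ n, V n ⟶ Y) [∀ n, IsOpenImmersion (j n)]
    (hc : ∀ x : Y, ∃ n, x ∈ Set.range (j n)) (h : ∀ n, Q (j n ≫ π)) : Q π := by
  let 𝒰 : Y.OpenCover := Scheme.Cover.mkOfCovers ι V j (fun x => by
    obtain ⟨n, y, hy⟩ := hc x
    exact ⟨n, y, hy⟩)
  exact IsZariskiLocalAtSource.of_openCover 𝒰 h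

lemma mem_range_of_isPullback {X Y W V : Scheme.{u}} {π : Y ⟶ X} {w : W ⟶ X} {j : V ⟶ Y}
    {ρ : V ⟶ W} (sq : IsPullback j ρ π w) (y : Y) (h : π y ∈ Set.range w) :
    y ∈ Set.range j := by
  obtain ⟨z, hz⟩ := h
  obtain ⟨v, hv, -⟩ := Scheme.exists_preimage_of_isPullback sq y z hz.symm
  exact ⟨v, hv⟩

section act

variable {X : Scheme.{u}} {L : Type u} [CommRing L] (f : Spec (.of L) ⟶ X) [QuasiCompact f]
  [QuasiSeparated f]

/-- the action of an automorphism of `L` on the normalization -/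
def nact (σ : L →+* L) (hσ : Spec.map (CommRingCat.ofHom σ) ≫ f = f) :
    f.normalization ⟶ f.normalization :=
  f.normalizationDesc (Spec.map (CommRingCat.ofHom σ) ≫ f.toNormalization) f.fromNormalization
    (by rw [Category.assoc, Scheme.Hom.toNormalization_fromNormalization, hσ])

variable {f}

lemma nact_from (σ : L →+* L) (hσ : Spec.map (CommRingCat.ofHom σ) ≫ f = f) :
    nact f σ hσ ≫ f.fromNormalization = f.fromNormalization :=
  Scheme.Hom.normalizationDesc_comp ..

lemma to_nact (σ : L →+* L) (hσ : Spec.map (CommRingCat.ofHom σ) ≫ f = f) :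
    f.toNormalization ≫ nact f σ hσ = Spec.map (CommRingCat.ofHom σ) ≫ f.toNormalization :=
  Scheme.Hom.toNormalization_normalizationDesc ..

lemma nact_id (hσ : Spec.map (CommRingCat.ofHom (RingHom.id L)) ≫ f = f) :
    nact f (RingHom.id L) hσ = 𝟙 _ := by
  apply Scheme.Hom.normalization.hom_ext _ _ _ f.fromNormalization
  · rw [to_nact, CommRingCat.ofHom_id, Spec.map_id, Category.id_comp, Category.comp_id]
  · exact nact_from _ hσ
  · exact Category.id_comp _

lemma nact_comp (σ τ : L →+* L) (hσ : Spec.map (CommRingCat.ofHom σ) ≫ f = f)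
    (hτ : Spec.map (CommRingCat.ofHom τ) ≫ f = f)
    (hστ : Spec.map (CommRingCat.ofHom (σ.comp τ)) ≫ f = f) :
    nact f (σ.comp τ) hστ = nact f σ hσ ≫ nact f τ hτ := by
  apply Scheme.Hom.normalization.hom_ext _ _ _ f.fromNormalization
  · rw [to_nact, reassoc_of% (to_nact σ hσ), to_nact, ← Category.assoc, ← Spec.map_comp,
      ← CommRingCat.ofHom_comp]
  · exact nact_from _ hστ
  · rw [Category.assoc, nact_from, nact_from]

/-- the action in a chart -/
lemma nact_chart {R B : Type u} [CommRing R] [CommRing B] [IsReduced B]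
    {w : Spec (.of R) ⟶ X} {j : Spec (.of B) ⟶ f.normalization} {ρ : R →+* B} {β : B →+* L}
    (hβ : Function.Injective β)
    (sq : IsPullback j (Spec.map (CommRingCat.ofHom ρ)) f.fromNormalization w)
    (hj : Spec.map (CommRingCat.ofHom β) ≫ j = f.toNormalization)
    (σ : L →+* L) (hσ : Spec.map (CommRingCat.ofHom σ) ≫ f = f) (s : B →+* B)
    (hs : β.comp s = σ.comp β) (hsρ : s.comp ρ = ρ) :
    Spec.map (CommRingCat.ofHom s) ≫ j = j ≫ nact f σ hσ := by
  have hdom : IsDominant (Spec.map (CommRingCat.ofHom β)) := by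
    refine ⟨?_⟩
    have h := (PrimeSpectrum.denseRange_comap_iff_ker_le_nilRadical β).2
      (by rw [(RingHom.injective_iff_ker_eq_bot β).1 hβ]; exact bot_le)
    exact h
  refine ext_of_isDominant_of_isSeparated f.fromNormalization ?_
    (Spec.map (CommRingCat.ofHom β)) ?_
  · rw [Category.assoc, Category.assoc, nact_from, sq.w, ← Category.assoc, ← Spec.map_comp,
      ← CommRingCat.ofHom_comp, hsρ]
  · rw [reassoc_of% hj, to_nact, ← hj, ← Category.assoc, ← Category.assoc, ← Spec.map_comp,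
      ← Spec.map_comp, ← CommRingCat.ofHom_comp, ← CommRingCat.ofHom_comp, hs]

end act

end Pool.Agent.W513.Mod
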