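import Mathlib

/-!
# Charts of a relative normalization
-/

open CategoryTheory Limits AlgebraicGeometry

set_option backward.isDefEq.respectTransparency false

noncomputable section

universe u

namespace Pool.Agent.W513.Mod

lemma integral_transport {A R L L' : Type u} [CommRing A] [CommRing R] [CommRing L] [CommRing L']
    (μ : A →+* R) (hμ : Function.Surjective μ) (φ : R →+* L) (l : L →+* L')
    (z : L) (h : φ.IsIntegralElem z) : ((l.comp φ).comp μ).IsIntegralElem (l z) := by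
  obtain ⟨p, hp, hz⟩ := h
  rcases subsingleton_or_nontrivial R with hR | hR
  · have hL : Subsingleton L := φ.codomain_trivial
    have hL' : Subsingleton L' := l.codomain_trivial
    exact ⟨1, Polynomial.monic_one, Subsingleton.elim _ _⟩
  obtain ⟨p', hp', hm, hmon⟩ := Polynomial.lifts_and_degree_eq_and_monic
    ((Polynomial.mem_lifts p).2 (Polynomial.map_surjective μ hμ p)) hp
  refine ⟨p', hmon, ?_⟩
  rw [← Polynomial.eval₂_map, hp', ← Polynomial.hom_eval₂, hz, map_zero]

lemma integral_transport' {A R L L' : Type u} [CommRing A] [CommRing R] [CommRing L] [CommRing L']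
    (μ : A →+* R) (φ : R →+* L) (l : L →+* L') (hl : Function.Injective l)
    (z : L) : ((l.comp φ).comp μ).IsIntegralElem (l z) → φ.IsIntegralElem z := by
  rintro ⟨p, hp, hz⟩
  refine ⟨p.map μ, hp.map μ, ?_⟩
  apply hl
  rw [← Polynomial.eval₂_map, ← Polynomial.hom_eval₂] at hz
  rw [hz, map_zero]

lemma isIso_map_of_eq {X : Scheme.{u}} {U V : X.Opens} (h : U ≤ V) (e : U = V) :
    IsIso (X.presheaf.map (homOfLE h).op) := by
  subst e
  have : homOfLE h = 𝟙 U := rfl
  rw [this, op_id, X.presheaf.map_id]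
  infer_instance

/-- MW-NORM -/
theorem norm_chart {X : Scheme.{u}} {L R B : Type u} [CommRing L] [CommRing R] [CommRing B]
    (f : Spec (.of L) ⟶ X) [QuasiCompact f] [QuasiSeparated f] (w : Spec (.of R) ⟶ X)
    [IsOpenImmersion w] (φ : R →+* L) (h : Spec.map (CommRingCat.ofHom φ) ≫ w = f)
    (ρ : R →+* B) (β : B →+* L) (hβρ : β.comp ρ = φ) (hβ : Function.Injective β)
    (hρ : ρ.IsIntegral) (hint : ∀ z : L, φ.IsIntegralElem z → z ∈ Set.range β) :
    ∃ j : Spec (.of B) ⟶ f.normalization,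
      IsPullback j (Spec.map (CommRingCat.ofHom ρ)) f.fromNormalization w ∧
      Spec.map (CommRingCat.ofHom β) ≫ j = f.toNormalization := by
  let U : X.Opens := w.opensRange
  have hU : IsAffineOpen U := isAffineOpen_opensRange w
  have hfU : f ⁻¹ᵁ U = ⊤ := by
    rw [← h, Scheme.Hom.comp_preimage]
    have : w ⁻¹ᵁ U = ⊤ := by
      simp [U]
    rw [this]
    rfl
  let μ : Γ(X, U) ⟶ .of R := w.appLE U ⊤ (by simp [U]) ≫ (Scheme.ΓSpecIso _).hom
  have hμ : IsIso μ := by
    have h1 : w ⁻¹ᵁ U = ⊤ := by simp [U]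
    have : IsIso (w.appLE U ⊤ (by simp [U])) := by
      rw [Scheme.Hom.appLE]
      have h2 : IsIso (w.app U) := Scheme.Hom.isIso_app _ _ le_rfl
      have h3 := isIso_map_of_eq (X := Spec (.of R)) h1.ge h1.symm
      infer_instance
    infer_instance
  let l : CommRingCat.of L ⟶ Γ(Spec (.of L), f ⁻¹ᵁ U) := (Scheme.ΓSpecIso _).inv ≫
    (Spec (.of L)).presheaf.map (homOfLE le_top).op
  have hl : IsIso l := by
    have : IsIso ((Spec (.of L)).presheaf.map (homOfLE (le_top : f ⁻¹ᵁ U ≤ ⊤)).op) :=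
      isIso_map_of_eq _ hfU
    infer_instance
  have hfl : f.app U = μ ≫ CommRingCat.ofHom φ ≫ l := by
    subst h
    simp only [μ, l, Category.assoc]
    rw [← Scheme.ΓSpecIso_naturality_assoc, Iso.hom_inv_id_assoc]
    rw [Scheme.Hom.app_eq_appLE, Scheme.Hom.appTop, Scheme.Hom.app_eq_appLE,
      Scheme.Hom.appLE_map, Scheme.Hom.appLE_comp_appLE]
  have hw : w = Spec.map μ ≫ hU.fromSpec := by
    simp only [μ, Spec.map_comp, Category.assoc]
    rw [IsAffineOpen.SpecMap_appLE_fromSpec w hU (isAffineOpen_top _)]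
    rw [IsAffineOpen.fromSpec_top]
    simp
  have hlinj : Function.Injective l.hom :=
    ((ConcreteCategory.isIso_iff_bijective l).1 hl).1
  have hlsurj : Function.Surjective l.hom :=
    ((ConcreteCategory.isIso_iff_bijective l).1 hl).2
  have hμsurj : Function.Surjective μ.hom :=
    ((ConcreteCategory.isIso_iff_bijective μ).1 hμ).2
  let alg : Algebra Γ(X, U) Γ(Spec (.of L), f ⁻¹ᵁ U) := (f.app U).hom.toAlgebra
  have halg : algebraMap Γ(X, U) Γ(Spec (.of L), f ⁻¹ᵁ U) = (l.hom.comp φ).comp μ.hom := by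
    change (f.app U).hom = _
    rw [hfl]
    rfl
  have hmem : ∀ b : B, l.hom (β b) ∈ integralClosure Γ(X, U) Γ(Spec (.of L), f ⁻¹ᵁ U) := by
    intro b
    change (algebraMap Γ(X, U) Γ(Spec (.of L), f ⁻¹ᵁ U)).IsIntegralElem _
    rw [halg]
    apply integral_transport μ.hom hμsurj
    obtain ⟨p, hp, hz⟩ := hρ b
    refine ⟨p, hp, ?_⟩
    rw [← hβρ, ← Polynomial.hom_eval₂, hz, map_zero]
  let θ : B →+* integralClosure Γ(X, U) Γ(Spec (.of L), f ⁻¹ᵁ U) :=
    (l.hom.comp β).codRestrict _ hmem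
  have hθ : Function.Bijective θ := by
    constructor
    · intro b b' hb
      exact hβ (hlinj (congrArg Subtype.val hb))
    · rintro ⟨z, hz⟩
      obtain ⟨z', rfl⟩ := hlsurj z
      change (algebraMap Γ(X, U) Γ(Spec (.of L), f ⁻¹ᵁ U)).IsIntegralElem _ at hz
      rw [halg] at hz
      obtain ⟨b, hb⟩ := hint z' (integral_transport' μ.hom φ l.hom hlinj z' hz)
      exact ⟨b, Subtype.ext (congrArg l.hom hb)⟩
  let e : B ≃+* integralClosure Γ(X, U) Γ(Spec (.of L), f ⁻¹ᵁ U) := RingEquiv.ofBijective θ hθ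
  let k : f.normalizationDiagram.obj (.op U) ⟶ .of B := CommRingCat.ofHom e.symm.toRingHom
  have hk : IsIso k := by
    let k' : CommRingCat.of B ⟶ f.normalizationDiagram.obj (.op U) :=
      CommRingCat.ofHom e.toRingHom
    refine ⟨⟨k', ?_, ?_⟩⟩
    · ext x
      exact e.apply_symm_apply x
    · ext x
      exact e.symm_apply_apply x
  let j : Spec (.of B) ⟶ f.normalization := Spec.map k ≫ f.normalizationOpenCover.f ⟨U, hU⟩
  have hj : IsOpenImmersion j := inferInstance
  have h1 : j ≫ f.fromNormalization = Spec.map (CommRingCat.ofHom ρ) ≫ w := by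
    simp only [j, Category.assoc]
    rw [f.ι_fromNormalization ⟨U, hU⟩]
    conv_rhs => rw [hw]
    rw [← Category.assoc, ← Category.assoc, ← Spec.map_comp, ← Spec.map_comp]
    congr 2
    ext x
    change e.symm (algebraMap Γ(X, U) (integralClosure Γ(X, U) Γ(Spec (.of L), f ⁻¹ᵁ U)) x) =
      ρ (μ.hom x)
    rw [RingEquiv.symm_apply_eq]
    apply Subtype.ext
    change algebraMap Γ(X, U) Γ(Spec (.of L), f ⁻¹ᵁ U) x = l.hom (β (ρ (μ.hom x)))
    rw [halg, ← hβρ]
    rfl
  refine ⟨j, (IsOpenImmersion.isPullback _ _ _ _ h1 ?_).flip, ?_⟩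
  · have h2 : j.opensRange = (f.normalizationOpenCover.f ⟨U, hU⟩).opensRange :=
      Scheme.Hom.opensRange_comp_of_isIso _ _
    rw [h2]
    exact f.fromNormalization_preimage ⟨U, hU⟩
  · have hι : IsIso (f ⁻¹ᵁ U).ι := by
      rw [hfU]
      exact inferInstanceAs (IsIso (Scheme.topIso _).hom)
    have h2 : (f ⁻¹ᵁ U).toSpecΓ ≫ Spec.map l = (f ⁻¹ᵁ U).ι := by
      simp only [l, Spec.map_comp]
      rw [Scheme.Opens.toSpecΓ_SpecMap_presheaf_map_top_assoc]
      simp
    have h3 : (CommRingCat.ofHom <| (integralClosure Γ(X, U)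
        Γ(Spec (.of L), f ⁻¹ᵁ U)).val.toRingHom) = k ≫ CommRingCat.ofHom β ≫ l := by
      ext x
      obtain ⟨b, rfl⟩ := hθ.2 x
      change l.hom (β b) = l.hom (β (e.symm (e b)))
      rw [e.symm_apply_apply]
    rw [← cancel_epi (f ⁻¹ᵁ U).ι]
    refine Eq.trans ?_ (f.ι_toNormalization ⟨U, hU⟩).symm
    simp only [j]
    change _ = (f ⁻¹ᵁ U).toSpecΓ ≫ Spec.map (CommRingCat.ofHom <| (integralClosure Γ(X, U)
        Γ(Spec (.of L), f ⁻¹ᵁ U)).val.toRingHom) ≫ _
    rw [h3, Spec.map_comp, Spec.map_comp, Category.assoc, Category.assoc,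
      reassoc_of% h2]

end Pool.Agent.W513.Mod
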