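import Mathlib
import Pool.Agent.W513.Mod.Loc
import Pool.Agent.W513.Mod.Clo
import Pool.Agent.W513.Mod.Norm
import Pool.Agent.W417.MW.D12
import Pool.Agent.W417.MW.ET
import Pool.Agent.W417.MW.RRf
import Pool.Agent.W417.MW.D3
import Pool.Agent.W363.MW.P1
import Pool.Agent.W363.MW.SM

/-!
# Construction of the covers
-/

open CategoryTheory Limits AlgebraicGeometry TensorProduct

set_option backward.isDefEq.respectTransparency false

noncomputable section

universe u

namespace Pool.Agent.W513.Mod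

open Pool.Agent.W417.MW (not_AS integral_BB exists_field RR_facts diffExp_of_open diffExp_Spec
  etale_BB length_BB)

open Pool.Agent.W363.MW (P1_charts smooth_BB)

attribute [local instance] MvPolynomial.gradedAlgebra

instance P1_sep (K : Type u) [Field K] : (P1 K).IsSeparated :=
  inferInstanceAs (Scheme.IsSeparated (Proj (MvPolynomial.homogeneousSubmodule (Fin 2) K)))

/-- the data of a `(ℤ/2)²`-cover of the projective line branched above `0, 1, ∞` -/
structure Dat (K : Type u) [Field K] where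
  /-- the three Artin–Schreier functions -/
  h : Fin 3 → KK K
  hh : h 2 = h 0 + h 1
  hn : ∀ n g, g ^ 2 + g ≠ h n
  /-- the ramified character at a branch point -/
  m : Fin 3 → Fin 3
  /-- the unramified character at a branch point -/
  n : Fin 3 → Fin 3
  hmn : ∀ c, m c ≠ n c
  /-- local parameters -/
  q : Fin 3 → RR K
  /-- regular functions -/
  d : Fin 3 → RR K
  hq : ∀ c, q c ∈ ({uR K, uR K ^ 2 + uR K, uR K * wR K ^ 2} : Set (RR K))
  hqh : ∀ c, ∀ φ : RR K →ₐ[K] KK K, φ (uR K) = uK K c → φ (q c) * h (m c) = 1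
  hdh : ∀ c, ∀ φ : RR K →ₐ[K] KK K, φ (uR K) = uK K c → φ (d c) = h (n c)

lemma exists_chi {m n : Fin 3} (h : m ≠ n) (a b : ZMod 2) :
    ∃ g : P4, chi m g = a ∧ chi n g = b := by
  revert m n a b
  decide

lemma chi_ext {m n : Fin 3} (h : m ≠ n) {g g' : P4} (h1 : chi m g = chi m g')
    (h2 : chi n g = chi n g') : g = g' := by
  revert m n g g'
  decide

lemma val_cases (a : ZMod 2) : a.val = 0 ∨ a.val = 1 := by
  revert a
  decide

variable {K : Type u} [Field K] [IsAlgClosed K] [CharP K 2]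

instance charP_RR : CharP (RR K) 2 := by
  have : Nontrivial (RR K) := (RR_facts K).1.toNontrivial
  exact charP_of_injective_algebraMap (algebraMap K (RR K)).injective 2

instance charP_KK : CharP (KK K) 2 :=
  charP_of_injective_algebraMap (algebraMap K (KK K)).injective 2

lemma alg_s {T : Type u} [CommRing T] (h2 : (2 : T) = 0) (s q : T) (h : s ^ 2 + q * s + q = 0)
    (a : ZMod 2) : (s + a.val * q) ^ 2 + q * (s + a.val * q) + q = 0 := by
  rcases val_cases a with ha | ha <;> rw [ha]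
  · simpa using h
  · push_cast
    linear_combination h + (s * q + q ^ 2) * h2

lemma alg_v {T : Type u} [CommRing T] (h2 : (2 : T) = 0) (v d : T) (h : v ^ 2 + v + d = 0)
    (b : ZMod 2) : (v + b.val) ^ 2 + (v + b.val) + d = 0 := by
  rcases val_cases b with hb | hb <;> rw [hb]
  · simpa using h
  · push_cast
    linear_combination h + (v + 1) * h2

lemma two_BB (R : Type u) [CommRing R] [CharP R 2] (q d : R) : (2 : BB R q d) = 0 := by
  have h : (2 : R) = 0 := CharP.cast_eq_zero R 2
  rw [← map_ofNat (algebraMap R (BB R q d)) 2, h, map_zero]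

/-- the Galois conjugation on the ring of a chart -/
lemma exists_s {R : Type u} [CommRing R] [CharP R 2] (q d : R) (a b : ZMod 2) :
    ∃ s : BB R q d →+* BB R q d,
    s.comp (algebraMap R (BB R q d)) = algebraMap R (BB R q d) ∧
    s (sB q d) = sB q d + a.val * algebraMap R (BB R q d) q ∧
    s (vB q d) = vB q d + b.val :=
  BB_lift _ _ _ (alg_s (two_BB R q d) _ _ (sB_eq q d) a) (alg_v (two_BB R q d) _ _ (vB_eq q d) b)

/-- a cover given by charts -/
structure Pack (K : Type u) [Field K] (R : Type u) [CommRing R] [Algebra K R] (u : R)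
    (m n : Fin 3 → Fin 3) (q d : Fin 3 → R) where
  /-- charts of the line -/
  w : Fin 3 → (Spec (.of R) ⟶ P1 K)
  /-- branch points -/
  i : Spec (.of (Fin 3 → K)) ⟶ P1 K
  /-- covering curve -/
  Y : Scheme.{u}
  /-- covering -/
  π : Y ⟶ P1 K
  /-- action -/
  act : P4 → (Y ⟶ Y)
  /-- charts of the covering curve -/
  j : ∀ c, Spec (.of (BB R (q c) (d c))) ⟶ Y
  ow : ∀ c, IsOpenImmersion (w c)
  wstr : ∀ c, w c ≫ P1str K = Spec.map (CommRingCat.ofHom (algebraMap K R))
  wcov : ∀ x : P1 K, ∃ c, x ∈ Set.range (w c)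
  iclosed : IsClosedImmersion i
  istr : i ≫ P1str K = Spec.map (CommRingCat.ofHom (algebraMap K (Fin 3 → K)))
  iw : ∀ c, ∀ e : R →ₐ[K] K, e u = 0 →
      Spec.map (CommRingCat.ofHom (Pi.evalRingHom (fun _ => K) c)) ≫ i =
        Spec.map (CommRingCat.ofHom (e : R →+* K)) ≫ w c
  act_one : act 1 = 𝟙 Y
  act_mul : ∀ g h, act (g * h) = act h ≫ act g
  act_π : ∀ g, act g ≫ π = π
  sq : ∀ c, IsPullback (j c) (Spec.map (CommRingCat.ofHom (algebraMap R (BB R (q c) (d c))))) π
    (w c)
  integral : IsIntegral Y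
  dom : ∀ c, IsDomain (BB R (q c) (d c))
  actj : ∀ c g, ∃ s : BB R (q c) (d c) →+* BB R (q c) (d c),
    s.comp (algebraMap R (BB R (q c) (d c))) = algebraMap R (BB R (q c) (d c)) ∧
    s (sB (q c) (d c)) = sB (q c) (d c) + ((chi (m c) g).val : BB R (q c) (d c)) *
      algebraMap R (BB R (q c) (d c)) (q c) ∧
    s (vB (q c) (d c)) = vB (q c) (d c) + ((chi (n c) g).val : BB R (q c) (d c)) ∧
    Spec.map (CommRingCat.ofHom s) ≫ j c = j c ≫ act g

lemma chart_act {R L : Type u} [CommRing R] [CharP R 2] [Field L] {X : Scheme.{u}}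
    {f : Spec (.of L) ⟶ X} [QuasiCompact f] [QuasiSeparated f] {w : Spec (.of R) ⟶ X} {q d : R}
    {β : BB R q d →+* L} (hβi : Function.Injective β) {j : Spec (.of (BB R q d)) ⟶ f.normalization}
    (sq : IsPullback j (Spec.map (CommRingCat.ofHom (algebraMap R (BB R q d))))
      f.fromNormalization w)
    (hj : Spec.map (CommRingCat.ofHom β) ≫ j = f.toNormalization)
    (σ : L →+* L) (hσ : Spec.map (CommRingCat.ofHom σ) ≫ f = f) (a b : ZMod 2)
    (h0 : ∀ x, σ (β (algebraMap R (BB R q d) x)) = β (algebraMap R (BB R q d) x))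
    (hs : σ (β (sB q d)) = β (sB q d) + (a.val : L) * β (algebraMap R (BB R q d) q))
    (hv : σ (β (vB q d)) = β (vB q d) + (b.val : L)) :
    ∃ s : BB R q d →+* BB R q d,
    s.comp (algebraMap R (BB R q d)) = algebraMap R (BB R q d) ∧
    s (sB q d) = sB q d + (a.val : BB R q d) * algebraMap R (BB R q d) q ∧
    s (vB q d) = vB q d + (b.val : BB R q d) ∧
    Spec.map (CommRingCat.ofHom s) ≫ j = j ≫ nact f σ hσ := by
  obtain ⟨s, hs1, hs2, hs3⟩ := exists_s q d a b
  have hdom : IsDomain (BB R q d) := hβi.isDomain β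
  refine ⟨s, hs1, hs2, hs3, nact_chart hβi sq hj _ hσ s ?_ hs1⟩
  apply BB_ext
  · rw [RingHom.comp_assoc, hs1]
    ext x
    exact (h0 x).symm
  · rw [RingHom.comp_apply, RingHom.comp_apply, hs2, hs, map_add, map_mul, map_natCast]
  · rw [RingHom.comp_apply, RingHom.comp_apply, hs3, hv, map_add, map_natCast]

lemma chart_beta {R K₀ L : Type u} [CommRing R] [IsDomain R] [IsIntegrallyClosed R] [CharP R 2]
    [Field K₀] [Field L] [Algebra K₀ L] [CharP L 2] (φ : R →+* K₀)
    (hfrac : @IsFractionRing R _ K₀ _ φ.toAlgebra) (h : Fin 3 → K₀)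
    (y : Fin 3 → L) (t : P4 →* (L →ₐ[K₀] L)) (hy : ∀ n, y n ^ 2 + y n = algebraMap K₀ L (h n))
    (hty : ∀ g n, t g (y n) = y n + ZMod.castHom (dvd_refl 2) L (chi n g))
    (hspan : ∀ m n, m ≠ n → ∀ z : L, ∃ c : Fin 4 → K₀, z = algebraMap K₀ L (c 0) +
        algebraMap K₀ L (c 1) * y m + algebraMap K₀ L (c 2) * y n +
        algebraMap K₀ L (c 3) * (y m * y n)) {m n : Fin 3} (hmn : m ≠ n)
    (q d : R) (hq : Prime q) (h1 : φ q * h m = 1) (h2 : φ d = h n) :
    ∃ β : BB R q d →+* L,
      β.comp (algebraMap R _) = (algebraMap K₀ L).comp φ ∧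
      β (sB _ _) = algebraMap K₀ L (φ q) * y m ∧
      β (vB _ _) = y n ∧ Function.Injective β ∧
      ∀ z : L, ((algebraMap K₀ L).comp φ).IsIntegralElem z → z ∈ Set.range β := by
  let _ := φ.toAlgebra
  let _ := ((algebraMap K₀ L).comp φ).toAlgebra
  have : IsScalarTower R K₀ L := IsScalarTower.of_algebraMap_eq fun x => rfl
  have : IsFractionRing R K₀ := hfrac
  obtain ⟨ga, hga1, hga2⟩ := exists_chi hmn 1 0
  obtain ⟨gb, hgb1, hgb2⟩ := exists_chi hmn 0 1
  obtain ⟨β, hβs, hβv, hβi, hβr⟩ := integral_BB (R := R) (K₀ := K₀) (L := L)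
    q d hq (y m) (y n)
    (by
      rw [hy]
      change algebraMap K₀ L (φ q) * _ = 1
      rw [← map_mul, h1, map_one])
    (by
      rw [hy]
      change _ = algebraMap K₀ L (φ d)
      rw [h2])
    (t ga) (t gb) (by rw [hty, hga1]; simp) (by rw [hty, hga2]; simp)
    (by rw [hty, hgb1]; simp) (by rw [hty, hgb2]; simp) (hspan _ _ hmn)
  refine ⟨β, ?_, hβs, hβv, hβi, hβr⟩
  ext x
  exact β.commutes x

lemma castHom_val (L : Type u) [CommRing L] [CharP L 2] (a : ZMod 2) :
    ZMod.castHom (dvd_refl 2) L a = (a.val : L) := by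
  rw [ZMod.castHom_apply, ZMod.natCast_val]

/-- the normalization of `X` in a field `L` with its charts -/
theorem exists_pack_aux {R K₀ L : Type u} [CommRing R] [Algebra K R] (u : R) [CharP R 2]
    [Field K₀] [Field L] [Algebra K₀ L] [CharP L 2]
    (m n : Fin 3 → Fin 3) (q d : Fin 3 → R) (φ : Fin 3 → (R →+* K₀))
    (y : Fin 3 → L) (t : P4 →* (L →ₐ[K₀] L))
    (hty : ∀ g n, t g (y n) = y n + ZMod.castHom (dvd_refl 2) L (chi n g))
    (w : Fin 3 → (Spec (.of R) ⟶ P1 K)) (i : Spec (.of (Fin 3 → K)) ⟶ P1 K)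
    (ow : ∀ c, IsOpenImmersion (w c))
    (wstr : ∀ c, w c ≫ P1str K = Spec.map (CommRingCat.ofHom (algebraMap K R)))
    (wcov : ∀ x : P1 K, ∃ c, x ∈ Set.range (w c))
    (iclosed : IsClosedImmersion i)
    (istr : i ≫ P1str K = Spec.map (CommRingCat.ofHom (algebraMap K (Fin 3 → K))))
    (iw : ∀ c, ∀ e : R →ₐ[K] K, e u = 0 →
      Spec.map (CommRingCat.ofHom (Pi.evalRingHom (fun _ => K) c)) ≫ i =
        Spec.map (CommRingCat.ofHom (e : R →+* K)) ≫ w c)
    (f : Spec (.of L) ⟶ P1 K)
    (hf : ∀ c, Spec.map (CommRingCat.ofHom ((algebraMap K₀ L).comp (φ c))) ≫ w c = f)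
    (β : ∀ c, BB R (q c) (d c) →+* L)
    (hβφ : ∀ c, (β c).comp (algebraMap R _) = (algebraMap K₀ L).comp (φ c))
    (hβs : ∀ c, β c (sB _ _) = algebraMap K₀ L (φ c (q c)) * y (m c))
    (hβv : ∀ c, β c (vB _ _) = y (n c))
    (hβi : ∀ c, Function.Injective (β c))
    (hβr : ∀ c, ∀ z : L, ((algebraMap K₀ L).comp (φ c)).IsIntegralElem z →
      z ∈ Set.range (β c)) : Nonempty (Pack K R u m n q d) := by
  have _i1 : QuasiCompact f := inferInstance
  have _i2 : QuasiSeparated f := inferInstance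
  have hnc := fun c => norm_chart f (w c) ((algebraMap K₀ L).comp (φ c)) (hf c)
    (algebraMap R (BB R (q c) (d c))) (β c) (hβφ c) (hβi c)
    (Algebra.IsIntegral.of_finite R (BB R (q c) (d c))).isIntegral
    (hβr c)
  choose j sq hj using hnc
  have htf : ∀ g, Spec.map (CommRingCat.ofHom (t g : L →+* L)) ≫ f = f := by
    intro g
    rw [← hf 0, ← Category.assoc, ← Spec.map_comp, ← CommRingCat.ofHom_comp]
    congr 3
    ext x
    exact (t g).commutes _
  have hs := fun c g => chart_act (hβi c) (sq c) (hj c) (t g : L →+* L) (htf g)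
    (chi (m c) g) (chi (n c) g)
    (fun x => by
      have h1 : β c (algebraMap R _ x) = algebraMap K₀ L (φ c x) := congr($(hβφ c) x)
      rw [h1]
      exact (t g).commutes _)
    (by
      have h1 : β c (algebraMap R _ (q c)) = algebraMap K₀ L (φ c (q c)) := congr($(hβφ c) (q c))
      rw [hβs, h1]
      change t g _ = _
      rw [map_mul, (t g).commutes, hty, castHom_val]
      ring)
    (by
      rw [hβv]
      change t g _ = _
      rw [hty, castHom_val])
  exact ⟨{
    w := w
    i := i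
    Y := f.normalization
    π := f.fromNormalization
    act := fun g => nact f (t g : L →+* L) (htf g)
    j := j
    ow := ow
    wstr := wstr
    wcov := wcov
    iclosed := iclosed
    istr := istr
    iw := iw
    act_one := by
      have h1 : (t 1 : L →+* L) = RingHom.id L := by
        rw [map_one]
        rfl
      have h2 : ∀ (σ : L →+* L) (hσ : Spec.map (CommRingCat.ofHom σ) ≫ f = f)
          (_ : σ = RingHom.id L), nact f σ hσ = 𝟙 _ := by
        rintro _ hσ rfl
        exact nact_id hσ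
      exact h2 _ _ h1
    act_mul := fun g h => by
      have h1 : (t (g * h) : L →+* L) = (t h : L →+* L).comp (t g : L →+* L) := by
        rw [mul_comm, map_mul]
        rfl
      have h2 : ∀ (σ : L →+* L) (hσ : Spec.map (CommRingCat.ofHom σ) ≫ f = f)
          (_ : σ = (t h : L →+* L).comp (t g : L →+* L)), nact f σ hσ =
          nact f (t h : L →+* L) (htf h) ≫ nact f (t g : L →+* L) (htf g) := by
        rintro _ hσ rfl
        exact nact_comp _ _ _ _ _
      exact h2 _ _ h1
    act_π := fun g => nact_from _ _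
    sq := sq
    integral := inferInstance
    dom := fun c => (hβi c).isDomain (β c)
    actj := hs }⟩

theorem exists_pack (dt : Dat K) : Nonempty (Pack K (RR K) (uR K) dt.m dt.n dt.q dt.d) := by
  obtain ⟨L, _, _, _, y, t, hy, hty, hspan⟩ := exists_field dt.h dt.hh dt.hn
  obtain ⟨w, φ, i, ow, wstr, wcov, hφ, hw, iclosed, istr, iw⟩ := P1_charts K
  obtain ⟨hdomR, hicR, -, -, -, hfrac, hq⟩ := RR_facts K
  have key := fun c => chart_beta (φ c : RR K →+* KK K)
    (hfrac c _ (hφ c) (fun x => (φ c).commutes x)) dt.h y t hy hty hspan (dt.hmn c)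
    (dt.q c) (dt.d c) (hq _ (dt.hq c)).1 (dt.hqh c (φ c) (hφ c)) (dt.hdh c (φ c) (hφ c))
  choose β hβφ hβs hβv hβi hβr using key
  refine exists_pack_aux (uR K) dt.m dt.n dt.q dt.d (fun c => (φ c : RR K →+* KK K)) y t hty w i ow
    wstr wcov iclosed istr iw (Spec.map (CommRingCat.ofHom (algebraMap (KK K) L)) ≫
    Spec.map (CommRingCat.ofHom (φ 0 : RR K →+* KK K)) ≫ w 0) (fun c => ?_)
    β hβφ hβs hβv hβi hβr
  rw [CommRingCat.ofHom_comp, Spec.map_comp, Category.assoc, hw c 0]

end Pool.Agent.W513.Mod
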