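import Mathlib
import Pool.Agent.W513.Mod.Asm

/-!
# The constructed tuples are covers
-/

open CategoryTheory Limits AlgebraicGeometry TensorProduct

set_option backward.isDefEq.respectTransparency false

noncomputable section

universe u

namespace Pool.Agent.W513.Mod

open Pool.Agent.W417.MW (not_AS integral_BB exists_field RR_facts diffExp_of_open diffExp_Spec
  etale_BB length_BB)

open Pool.Agent.W363.MW (P1_charts smooth_BB)

variable {K : Type u} [Field K]

lemma alg_pi (ψ : (Fin 3 → K) →+* K) (h : ∀ x : K, ψ (algebraMap K (Fin 3 → K) x) = x) :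
    ∃ c, ψ = Pi.evalRingHom (fun _ => K) c := by
  have h1 : ∑ c : Fin 3, ψ (Pi.single c 1) = 1 := by
    rw [← map_sum, ← map_one ψ]
    congr 1
    ext c
    fin_cases c <;> simp [Pi.single_apply]
  obtain ⟨c, hc⟩ : ∃ c, ψ (Pi.single c 1) ≠ 0 := by
    by_contra hn
    push Not at hn
    simp [hn] at h1
  refine ⟨c, RingHom.ext fun x => ?_⟩
  have h2 : x * Pi.single c 1 = algebraMap K (Fin 3 → K) (x c) * Pi.single c 1 := by
    ext c'
    by_cases hcc : c' = c
    · subst hcc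
      simp
    · simp [hcc]
  have h3 := congrArg ψ h2
  rw [map_mul, map_mul, h] at h3
  exact mul_right_cancel₀ hc h3

instance finite_pi : IsFinite (Spec.map (CommRingCat.ofHom (algebraMap K (Fin 3 → K)))) := by
  rw [IsFinite.SpecMap_iff]
  exact RingHom.finite_algebraMap.2 inferInstance

instance etale_pi : Etale (Spec.map (CommRingCat.ofHom (algebraMap K (Fin 3 → K)))) := by
  rw [HasRingHomProperty.Spec_iff (P := @Etale)]
  change (algebraMap K (Fin 3 → K)).Etale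
  rw [RingHom.etale_algebraMap]
  have h1 : Algebra.FormallyEtale K (Fin 3 → K) :=
    (Algebra.FormallyEtale.pi_iff _).2 fun c => inferInstance
  have h2 : Algebra.FinitePresentation K (Fin 3 → K) :=
    Algebra.FinitePresentation.of_finiteType.1 inferInstance
  exact ⟨h1, h2⟩

section pack

variable {R : Type u} [CommRing R] [Algebra K R] {u : R} {m n : Fin 3 → Fin 3} {q d : Fin 3 → R}
  (p : Pack K R u m n q d)

instance (c : Fin 3) : IsOpenImmersion (p.w c) := p.ow c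

instance : IsIntegral p.Y := p.integral

/-- the branch point in a chart -/
lemma comap_eq {K R B : Type u} [Field K] [CommRing R] [CommRing B] [Algebra K R] [Algebra R B]
    (e₀ : R →ₐ[K] K) (q : R) (hker : RingHom.ker e₀ = Ideal.span {q}) (x : Spec (.of B)) :
    algebraMap R B q ∈ x.asIdeal ↔ (Spec.map (CommRingCat.ofHom (algebraMap R B))) x =
      (Spec.map (CommRingCat.ofHom (e₀ : R →+* K))) (pt K) := by
  have hsurj : Function.Surjective e₀ := fun z => ⟨algebraMap K R z, by simp⟩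
  have hmax : (RingHom.ker e₀).IsMaximal := RingHom.ker_isMaximal_of_surjective _ hsurj
  have hpt : ((Spec.map (CommRingCat.ofHom (e₀ : R →+* K))) (pt K)).asIdeal = RingHom.ker e₀ := by
    change Ideal.comap (e₀ : R →+* K) (IsLocalRing.maximalIdeal K) = _
    rw [IsLocalRing.eq_maximalIdeal (Ideal.bot_isMaximal (K := K)) |>.symm]
    rfl
  have hx : ((Spec.map (CommRingCat.ofHom (algebraMap R B))) x).asIdeal =
    Ideal.comap (algebraMap R B) x.asIdeal := rfl
  constructor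
  · intro h
    apply PrimeSpectrum.ext
    rw [hpt, hx]
    refine (hmax.eq_of_le ?_ ?_).symm
    · exact (Ideal.comap_ne_top _ x.2.ne_top)
    · rw [hker, Ideal.span_le, Set.singleton_subset_iff]
      exact h
  · intro h
    have h2 := congrArg PrimeSpectrum.asIdeal h
    rw [hpt, hx] at h2
    have : q ∈ RingHom.ker e₀ := by
      rw [hker]
      exact Ideal.mem_span_singleton_self q
    rw [← h2] at this
    exact this

/-- the tuple -/
def Pack.D : Tuple P4 (Spec (.of K)) where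
  X := P1 K
  B := Spec (.of (Fin 3 → K))
  Y := p.Y
  f := P1str K
  i := p.i
  π := p.π
  act := p.act
  act_one := p.act_one
  act_mul := p.act_mul
  act_π := p.act_π

instance Pack.oj (c : Fin 3) : IsOpenImmersion (p.j c) :=
  MorphismProperty.of_isPullback (p.sq c).flip (p.ow c)

lemma Pack.finite : IsFinite p.π :=
  local_target @IsFinite p.π p.w p.j _ p.wcov p.sq fun c => by
    rw [IsFinite.SpecMap_iff]
    exact RingHom.finite_algebraMap.2 inferInstance

lemma Pack.flat : Flat p.π :=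
  local_target @Flat p.π p.w p.j _ p.wcov p.sq fun c => by
    rw [Flat.SpecMap_iff]
    exact RingHom.flat_algebraMap_iff.2 inferInstance

lemma Pack.jcov (y : p.Y) : ∃ c, y ∈ Set.range (p.j c) := by
  obtain ⟨c, hc⟩ := p.wcov (p.π y)
  exact ⟨c, mem_range_of_isPullback (p.sq c) y hc⟩

lemma Pack.jstr (c : Fin 3) : p.j c ≫ p.π ≫ P1str K =
    Spec.map (CommRingCat.ofHom (algebraMap K (BB R (q c) (d c)))) := by
  rw [reassoc_of% (p.sq c).w, p.wstr, ← Spec.map_comp, ← CommRingCat.ofHom_comp]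
  rfl

lemma Pack.smooth (hsm : ∀ c, SmoothOfRelativeDimension 1
    (Spec.map (CommRingCat.ofHom (algebraMap K (BB R (q c) (d c)))))) :
    SmoothOfRelativeDimension 1 (p.π ≫ P1str K) :=
  local_source (@SmoothOfRelativeDimension 1) _ p.j p.jcov fun c => by
    rw [p.jstr]
    exact hsm c

lemma Pack.conn : ConnectedSpace p.Y := inferInstance

lemma Pack.etaleAt (e₀ : R →ₐ[K] K) (he₀ : e₀ u = 0)
    (hker : ∀ c, RingHom.ker e₀ = Ideal.span {q c})
    (het : ∀ c, Algebra.Etale R (Localization.Away (algebraMap R (BB R (q c) (d c)) (q c))))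
    (y : p.Y) (hy : p.π y ∉ Set.range p.i) : ∃ V : p.Y.Opens, y ∈ V ∧ Etale (V.ι ≫ p.π) := by
  obtain ⟨c, x, rfl⟩ := p.jcov y
  let B' := Localization.Away (algebraMap R (BB R (q c) (d c)) (q c))
  have hx : algebraMap R (BB R (q c) (d c)) (q c) ∉ x.asIdeal := by
    intro hx
    apply hy
    have h1 := (comap_eq e₀ (q c) (hker c) x).1 hx
    have h2 : p.π (p.j c x) = p.w c
        ((Spec.map (CommRingCat.ofHom (algebraMap R (BB R (q c) (d c))))) x) := by
      rw [← Scheme.Hom.comp_apply, (p.sq c).w, Scheme.Hom.comp_apply]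
    rw [h2, h1, ← Scheme.Hom.comp_apply, ← p.iw c e₀ he₀, Scheme.Hom.comp_apply]
    exact ⟨_, rfl⟩
  let k : Spec (.of B') ⟶ p.Y := Spec.map (CommRingCat.ofHom (algebraMap _ B')) ≫ p.j c
  have hk : IsOpenImmersion k := inferInstance
  refine ⟨k.opensRange, ?_, ?_⟩
  · have h1 : x ∈ Set.range (Spec.map (CommRingCat.ofHom (algebraMap _ B'))) := by
      have h2 := PrimeSpectrum.localization_away_comap_range B'
        (algebraMap R (BB R (q c) (d c)) (q c))
      have h3 : x ∈ Set.range (PrimeSpectrum.comap (algebraMap (BB R (q c) (d c)) B')) := by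
        rw [h2]
        exact hx
      exact h3
    obtain ⟨z, hz⟩ := h1
    exact ⟨z, by rw [Scheme.Hom.comp_apply, hz]⟩
  · have h1 : k.opensRange.ι ≫ p.π = k.isoOpensRange.inv ≫ (Spec.map (CommRingCat.ofHom
        (algebraMap R B')) ≫ p.w c) := by
      rw [Iso.eq_inv_comp, ← Category.assoc, Scheme.Hom.isoOpensRange_hom_ι, Category.assoc,
        (p.sq c).w, ← Category.assoc, ← Spec.map_comp, ← CommRingCat.ofHom_comp]
      rfl
    rw [h1]
    have h2 : Etale (Spec.map (CommRingCat.ofHom (algebraMap R B'))) := by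
      rw [HasRingHomProperty.Spec_iff (P := @Etale)]
      exact RingHom.etale_algebraMap.2 (het c)
    infer_instance

lemma exists_alg {A : Type u} [CommRing A] [Algebra K A] (x : Spec (.of K) ⟶ Spec (.of A))
    (hx : x ≫ Spec.map (CommRingCat.ofHom (algebraMap K A)) = 𝟙 _) :
    ∃ e : A →ₐ[K] K, x = Spec.map (CommRingCat.ofHom (e : A →+* K)) := by
  obtain ⟨φ, rfl⟩ := Spec.map_surjective x
  rw [← Spec.map_comp, ← Spec.map_id] at hx
  have h := Spec.map_injective hx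
  exact ⟨{ toRingHom := φ.hom, commutes' := fun r => congr($h r) }, rfl⟩

lemma Pack.lift_x (x : Spec (.of K) ⟶ P1 K) (hx : x ≫ P1str K = 𝟙 _) :
    ∃ c, ∃ e : R →ₐ[K] K, x = Spec.map (CommRingCat.ofHom (e : R →+* K)) ≫ p.w c := by
  obtain ⟨c, hc⟩ := p.wcov (x (pt K))
  have hr : Set.range x ⊆ Set.range (p.w c) := by
    rintro _ ⟨z, rfl⟩
    rw [Subsingleton.elim z (pt K)]
    exact hc
  let l := IsOpenImmersion.lift (p.w c) x hr
  have hl : l ≫ p.w c = x := IsOpenImmersion.lift_fac _ _ _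
  obtain ⟨e, he⟩ := exists_alg (A := R) l (by rw [← p.wstr c, reassoc_of% hl, hx])
  exact ⟨c, e, by rw [← he, hl]⟩

lemma Pack.lift_y (c : Fin 3) (e : R →+* K) (y : Spec (.of K) ⟶ p.Y)
    (hy : y ≫ p.π = Spec.map (CommRingCat.ofHom e) ≫ p.w c) :
    ∃ ε : BB R (q c) (d c) →+* K, ε.comp (algebraMap R _) = e ∧
      y = Spec.map (CommRingCat.ofHom ε) ≫ p.j c := by
  let l := (p.sq c).lift y (Spec.map (CommRingCat.ofHom e)) hy
  have h1 : l ≫ p.j c = y := (p.sq c).lift_fst _ _ _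
  have h2 : l ≫ Spec.map (CommRingCat.ofHom (algebraMap R (BB R (q c) (d c)))) =
    Spec.map (CommRingCat.ofHom e) := (p.sq c).lift_snd _ _ _
  obtain ⟨φ, hφ⟩ := Spec.map_surjective l
  rw [← hφ, ← Spec.map_comp] at h2
  have h3 := Spec.map_injective h2
  refine ⟨φ.hom, ?_, ?_⟩
  · ext x
    exact congr($h3 x)
  · rw [← h1, ← hφ]
    rfl

/-- equality of points in a chart -/
lemma Pack.eq_iff (c : Fin 3) (ε ε' : BB R (q c) (d c) →+* K) :
    Spec.map (CommRingCat.ofHom ε) ≫ p.j c = Spec.map (CommRingCat.ofHom ε') ≫ p.j c ↔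
      ε = ε' := by
  constructor
  · intro h
    have h1 := (cancel_mono _).1 h
    have h2 := Spec.map_injective h1
    exact congrArg CommRingCat.Hom.hom h2
  · rintro rfl
    rfl

lemma Pack.act_pt [CharP K 2] (c : Fin 3) (ε ε' : BB R (q c) (d c) →+* K)
    (h : ε.comp (algebraMap R _) = ε'.comp (algebraMap R _)) (g : P4) :
    (Spec.map (CommRingCat.ofHom ε) ≫ p.j c) ≫ p.act g =
      Spec.map (CommRingCat.ofHom ε') ≫ p.j c ↔
    ε' (sB _ _) = ε (sB _ _) + ((chi (m c) g).val : K) * ε (algebraMap R _ (q c)) ∧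
    ε' (vB _ _) = ε (vB _ _) + ((chi (n c) g).val : K) := by
  obtain ⟨s, hs1, hs2, hs3, hs4⟩ := p.actj c g
  rw [Category.assoc, ← hs4, ← Category.assoc, ← Spec.map_comp, ← CommRingCat.ofHom_comp,
    p.eq_iff]
  constructor
  · rintro rfl
    rw [RingHom.comp_apply, RingHom.comp_apply, hs2, hs3, map_add, map_add, map_mul,
      map_natCast, map_natCast]
    exact ⟨rfl, rfl⟩
  · rintro ⟨h1, h2⟩
    apply BB_ext
    · rw [RingHom.comp_assoc, hs1, h]
    · rw [RingHom.comp_apply, hs2, h1, map_add, map_mul, map_natCast]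
    · rw [RingHom.comp_apply, hs3, h2, map_add, map_natCast]

lemma alg_root [CharP K 2] {A B Q : K} (hA : A ^ 2 + Q * A + Q = 0) (hB : B ^ 2 + Q * B + Q = 0) :
    ∃ a : ZMod 2, B = A + (a.val : K) * Q := by
  have h2 : (2 : K) = 0 := CharP.cast_eq_zero K 2
  have h : (B - A) * (B - (A + Q)) = 0 := by
    linear_combination hA + hB - (A * B + B * Q + Q) * h2
  rcases mul_eq_zero.1 h with h | h
  · exact ⟨0, by simpa [sub_eq_zero] using h⟩
  · refine ⟨1, ?_⟩
    rw [sub_eq_zero] at h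
    rw [h, show (1 : ZMod 2).val = 1 from rfl, Nat.cast_one, one_mul]

lemma alg_root' [CharP K 2] {A B Q : K} (hA : A ^ 2 + A + Q = 0) (hB : B ^ 2 + B + Q = 0) :
    ∃ a : ZMod 2, B = A + (a.val : K) := by
  have h2 : (2 : K) = 0 := CharP.cast_eq_zero K 2
  have h : (B - A) * (B - (A + 1)) = 0 := by
    linear_combination hA + hB - (A * B + B + Q) * h2
  rcases mul_eq_zero.1 h with h | h
  · exact ⟨0, by simpa [sub_eq_zero] using h⟩
  · refine ⟨1, ?_⟩
    rw [sub_eq_zero] at h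
    rw [h, show (1 : ZMod 2).val = 1 from rfl, Nat.cast_one]

lemma val_inj {a b : ZMod 2} (h : (a.val : K) = (b.val : K)) : a = b := by
  rcases val_cases a with ha | ha <;> rcases val_cases b with hb | hb
  · exact ZMod.val_injective 2 (ha.trans hb.symm)
  · simp [ha, hb] at h
  · simp [ha, hb] at h
  · exact ZMod.val_injective 2 (ha.trans hb.symm)

lemma chi_one (n : Fin 3) : chi n 1 = 0 := by
  revert n
  decide

omit [Algebra K R] in
lemma eps_s (c : Fin 3) (ε : BB R (q c) (d c) →+* K) :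
    (ε (sB _ _)) ^ 2 + ε (algebraMap R _ (q c)) * ε (sB _ _) + ε (algebraMap R _ (q c)) = 0 := by
  have h := congrArg ε (sB_eq (q c) (d c))
  rwa [map_add, map_add, map_mul, map_pow, map_zero] at h

omit [Algebra K R] in
lemma eps_v (c : Fin 3) (ε : BB R (q c) (d c) →+* K) :
    (ε (vB _ _)) ^ 2 + ε (vB _ _) + ε (algebraMap R _ (d c)) = 0 := by
  have h := congrArg ε (vB_eq (q c) (d c))
  rwa [map_add, map_add, map_pow, map_zero] at h

lemma Pack.trans [CharP K 2] (hmn : ∀ c, m c ≠ n c)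
    (hqu : ∀ c, ∀ e : R →ₐ[K] K, e (q c) = 0 → e u = 0)
    (y y' : Spec (.of K) ⟶ p.Y) (h1 : y ≫ p.π ≫ P1str K = 𝟙 _) (h2 : y' ≫ p.π = y ≫ p.π)
    (h3 : ∀ b : Spec (.of K) ⟶ Spec (.of (Fin 3 → K)), b ≫ p.i ≠ y ≫ p.π) :
    ∃! g : P4, y ≫ p.act g = y' := by
  obtain ⟨c, e, he⟩ := p.lift_x (y ≫ p.π) (by rw [Category.assoc, h1])
  obtain ⟨ε, hε1, rfl⟩ := p.lift_y c e y he
  obtain ⟨ε', hε1', rfl⟩ := p.lift_y c e y' (h2.trans he)
  have hQ : ε (algebraMap R _ (q c)) = e (q c) := congr($hε1 (q c))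
  have hQ' : ε' (algebraMap R _ (q c)) = e (q c) := congr($hε1' (q c))
  have hd : ε (algebraMap R _ (d c)) = e (d c) := congr($hε1 (d c))
  have hd' : ε' (algebraMap R _ (d c)) = e (d c) := congr($hε1' (d c))
  have hq0 : e (q c) ≠ 0 := by
    intro h0
    apply h3 (Spec.map (CommRingCat.ofHom (Pi.evalRingHom (fun _ => K) c)))
    rw [p.iw c e (hqu c e h0), he]
  obtain ⟨a, ha⟩ := alg_root (K := K) (A := ε (sB _ _)) (B := ε' (sB _ _)) (Q := e (q c))
    (by rw [← hQ]; exact eps_s c ε) (by rw [← hQ']; exact eps_s c ε')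
  obtain ⟨b, hb⟩ := alg_root' (K := K) (A := ε (vB _ _)) (B := ε' (vB _ _)) (Q := e (d c))
    (by rw [← hd]; exact eps_v c ε) (by rw [← hd']; exact eps_v c ε')
  obtain ⟨g, hg1, hg2⟩ := exists_chi (hmn c) a b
  have hact := p.act_pt c ε ε' (hε1.trans hε1'.symm)
  refine ⟨g, (hact g).2 ⟨by rw [hg1, hQ, ha], by rw [hg2, hb]⟩, fun g' hg' => ?_⟩
  obtain ⟨h4, h5⟩ := (hact g').1 hg'
  rw [hQ, ha] at h4
  rw [hb] at h5
  apply chi_ext (hmn c)
  · rw [hg1]
    exact (val_inj (mul_right_cancel₀ hq0 (add_left_cancel h4))).symm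
  · rw [hg2]
    exact (val_inj (add_left_cancel h5)).symm

/-- points fixed by an element of the group -/
lemma Pack.fixed [CharP K 2] (hmn : ∀ c, m c ≠ n c)
    (hqu : ∀ c, ∀ e : R →ₐ[K] K, e (q c) = 0 → e u = 0)
    {g : P4} (hg : g ≠ 1) (y : Spec (.of K) ⟶ p.Y) (h1 : y ≫ p.π ≫ P1str K = 𝟙 _)
    (h2 : y ≫ p.act g = y) : ∃ c, chi (n c) g = 0 ∧
    y ≫ p.π = Spec.map (CommRingCat.ofHom (Pi.evalRingHom (fun _ => K) c)) ≫ p.i := by
  obtain ⟨c, e, he⟩ := p.lift_x (y ≫ p.π) (by rw [Category.assoc, h1])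
  obtain ⟨ε, hε1, rfl⟩ := p.lift_y c e y he
  have hQ : ε (algebraMap R _ (q c)) = e (q c) := congr($hε1 (q c))
  obtain ⟨h4, h5⟩ := (p.act_pt c ε ε rfl g).1 h2
  have h6 : chi (n c) g = 0 := by
    apply val_inj (K := K)
    rw [left_eq_add] at h5
    rw [h5]
    simp
  have h7 : chi (m c) g ≠ 0 := fun h8 => hg (chi_ext (hmn c) (h8.trans (chi_one _).symm)
    (h6.trans (chi_one _).symm))
  refine ⟨c, h6, ?_⟩
  rw [left_eq_add, mul_eq_zero] at h4
  have h8 : e (q c) = 0 := by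
    rcases h4 with h4 | h4
    · exact absurd (val_inj (K := K) (by rw [h4]; simp)) h7
    · rw [← hQ, h4]
  rw [p.iw c e (hqu c e h8), he]

lemma Pack.ram [CharP K 2] [IsAlgClosed K] (hmn : ∀ c, m c ≠ n c)
    (e₀ : R →ₐ[K] K) (he₀ : e₀ u = 0)
    (hker : ∀ c, RingHom.ker e₀ = Ideal.span {q c})
    (b : Spec (.of K) ⟶ Spec (.of (Fin 3 → K))) (hb : b ≫ p.i ≫ P1str K = 𝟙 _) :
    ∃ g : P4, g ≠ 1 ∧ ∃ y : Spec (.of K) ⟶ p.Y, y ≫ p.π = b ≫ p.i ∧ y ≫ p.act g = y := by
  rw [p.istr] at hb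
  obtain ⟨ψ, rfl⟩ := exists_alg b hb
  obtain ⟨c, hc⟩ := alg_pi (ψ : (Fin 3 → K) →+* K) (fun x => ψ.commutes x)
  rw [hc]
  have hq0 : e₀ (q c) = 0 := by
    have : q c ∈ RingHom.ker e₀ := by
      rw [hker c]
      exact Ideal.mem_span_singleton_self _
    exact this
  obtain ⟨g, hg1, hg2⟩ := exists_chi (hmn c) 1 0
  obtain ⟨v0, hv0⟩ : ∃ v0 : K, v0 ^ 2 + v0 + e₀ (d c) = 0 := by
    obtain ⟨v0, hv0⟩ := IsAlgClosed.exists_root
      (Polynomial.X ^ 2 + Polynomial.X + Polynomial.C (e₀ (d c)) : Polynomial K) (by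
        have h : (Polynomial.X ^ 2 + Polynomial.X + Polynomial.C (e₀ (d c)) :
          Polynomial K).degree = 2 := by compute_degree!
        rw [h]
        decide)
    exact ⟨v0, by simpa using hv0⟩
  obtain ⟨ε, hε1, hε2, hε3⟩ := BB_lift (q := q c) (d := d c) (e₀ : R →+* K) 0 v0
    (by simp [hq0]) hv0
  refine ⟨g, ?_, Spec.map (CommRingCat.ofHom ε) ≫ p.j c, ?_, ?_⟩
  · rintro rfl
    rw [chi_one] at hg1
    exact zero_ne_one hg1
  · rw [Category.assoc, (p.sq c).w, ← Category.assoc, ← Spec.map_comp, ← CommRingCat.ofHom_comp,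
      hε1, p.iw c e₀ he₀]
  · rw [p.act_pt c ε ε rfl, hg1, hg2]
    have hQ : ε (algebraMap R _ (q c)) = e₀ (q c) := congr($hε1 (q c))
    rw [hQ, hq0]
    simp

lemma Pack.delta_eq [CharP K 2] [IsAlgClosed K] (e₀ : R →ₐ[K] K) (he₀ : e₀ u = 0)
    (hker : ∀ c, RingHom.ker e₀ = Ideal.span {q c}) (hnz : ∀ c, q c ∈ nonZeroDivisors R)
    (c : Fin 3) : delta p.π ((Spec.map (CommRingCat.ofHom (Pi.evalRingHom (fun _ => K) c)) ≫ p.i)
      (pt K)) = 4 := by
  rw [p.iw c e₀ he₀, Scheme.Hom.comp_apply]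
  have hset : {y : p.Y | p.π y = p.w c ((Spec.map (CommRingCat.ofHom (e₀ : R →+* K))) (pt K))} =
      (p.j c) '' {x | algebraMap R (BB R (q c) (d c)) (q c) ∈ x.asIdeal} := by
    ext y
    constructor
    · intro hy
      obtain ⟨x, rfl⟩ := mem_range_of_isPullback (p.sq c) y ⟨_, hy.symm⟩
      refine ⟨x, (comap_eq e₀ (q c) (hker c) x).2 ?_, rfl⟩
      apply (p.w c).injective
      rw [← Scheme.Hom.comp_apply, ← (p.sq c).w, Scheme.Hom.comp_apply]
      exact hy
    · rintro ⟨x, hx, rfl⟩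
      change p.π (p.j c x) = _
      rw [← (comap_eq e₀ (q c) (hker c) x).1 hx, ← Scheme.Hom.comp_apply, (p.sq c).w,
        Scheme.Hom.comp_apply]
  have h1 : delta p.π (p.w c ((Spec.map (CommRingCat.ofHom (e₀ : R →+* K))) (pt K))) =
      ∑ᶠ y ∈ {y : p.Y | p.π y = p.w c ((Spec.map (CommRingCat.ofHom (e₀ : R →+* K))) (pt K))},
        diffExp p.π y := rfl
  rw [h1, hset, finsum_mem_image (p.j c).injective.injOn]
  have h2 : ∀ x : Spec (.of (BB R (q c) (d c))), diffExp p.π (p.j c x) =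
      Module.length (Localization.AtPrime x.asIdeal)
        (Localization.AtPrime x.asIdeal ⊗[BB R (q c) (d c)] Ω[BB R (q c) (d c)⁄R]) := fun x => by
    rw [diffExp_of_open p.π _ (p.j c) (p.w c) (p.sq c).w x]
    exact diffExp_Spec x
  simp only [h2]
  exact length_BB (q c) (d c) e₀ (hker c) (hnz c)

lemma Pack.conf [CharP K 2] [IsAlgClosed K] (e₀ : R →ₐ[K] K) (he₀ : e₀ u = 0)
    (hker : ∀ c, RingHom.ker e₀ = Ideal.span {q c}) (hnz : ∀ c, q c ∈ nonZeroDivisors R) :
    ∃ s : Finset {b : Spec (.of K) ⟶ Spec (.of (Fin 3 → K)) // b ≫ p.i ≫ P1str K = 𝟙 _},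
      (∀ b, b ∈ s) ∧ s.val.map (fun b => delta p.π ((b.1 ≫ p.i) (pt K))) =
        ({4, 4, 4} : Multiset ℕ).map (fun n => (n : ℕ∞)) := by
  let F : Fin 3 → {b : Spec (.of K) ⟶ Spec (.of (Fin 3 → K)) // b ≫ p.i ≫ P1str K = 𝟙 _} :=
    fun c => ⟨Spec.map (CommRingCat.ofHom (Pi.evalRingHom (fun _ => K) c)), by
      rw [p.istr, ← Spec.map_comp, ← CommRingCat.ofHom_comp]
      exact Spec.map_id _⟩
  have hF : Function.Injective F := by
    intro c c' h
    have h1 := Spec.map_injective (congrArg Subtype.val h)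
    have h2 : Pi.evalRingHom (fun _ : Fin 3 => K) c = Pi.evalRingHom (fun _ => K) c' :=
      congrArg CommRingCat.Hom.hom h1
    by_contra hc
    have h3 := congr($h2 (Pi.single c 1))
    simp [Ne.symm hc] at h3
  refine ⟨Finset.univ.map ⟨F, hF⟩, fun b => ?_, ?_⟩
  · obtain ⟨b, hb⟩ := b
    have hb' := hb
    rw [p.istr] at hb'
    obtain ⟨ψ, rfl⟩ := exists_alg b hb'
    obtain ⟨c, hc⟩ := alg_pi (ψ : (Fin 3 → K) →+* K) (fun x => ψ.commutes x)
    refine Finset.mem_map.2 ⟨c, Finset.mem_univ _, Subtype.ext ?_⟩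
    change Spec.map _ = Spec.map _
    rw [hc]
  · rw [Finset.map_val, Multiset.map_map]
    have h1 : (fun b : {b : Spec (.of K) ⟶ Spec (.of (Fin 3 → K)) // b ≫ p.i ≫ P1str K = 𝟙 _} =>
        delta p.π ((b.1 ≫ p.i) (pt K))) ∘ (⟨F, hF⟩ : Fin 3 ↪ _) = fun _ => (4 : ℕ∞) := by
      funext c
      exact p.delta_eq e₀ he₀ hker hnz c
    rw [h1]
    rfl

theorem Pack.isCover [CharP K 2] [IsAlgClosed K] (hmn : ∀ c, m c ≠ n c)
    (e₀ : R →ₐ[K] K) (he₀ : e₀ u = 0)
    (hqu : ∀ c, ∀ e : R →ₐ[K] K, e (q c) = 0 → e u = 0)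
    (hker : ∀ c, RingHom.ker e₀ = Ideal.span {q c}) (hnz : ∀ c, q c ∈ nonZeroDivisors R)
    (het : ∀ c, Algebra.Etale R (Localization.Away (algebraMap R (BB R (q c) (d c)) (q c))))
    (hsm : ∀ c, SmoothOfRelativeDimension 1
      (Spec.map (CommRingCat.ofHom (algebraMap K (BB R (q c) (d c)))))) :
    IsCover K {4, 4, 4} p.D where
  genus := ⟨Iso.refl _, Category.id_comp _⟩
  closedB := p.iclosed
  finiteB := by
    change IsFinite (p.i ≫ P1str K)
    rw [p.istr]
    infer_instance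
  etaleB := by
    change Etale (p.i ≫ P1str K)
    rw [p.istr]
    infer_instance
  finite := p.finite
  flat := p.flat
  smooth := p.smooth hsm
  conn := p.conn
  etale := p.etaleAt e₀ he₀ hker het
  trans := p.trans hmn hqu
  ram := p.ram hmn e₀ he₀ hker
  conf := p.conf e₀ he₀ hker hnz

end pack

end Pool.Agent.W513.Mod
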