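import Mathlib
import Pool.Agent.W513.Mod.Cov

/-!
# The two examples
-/

open CategoryTheory Limits AlgebraicGeometry TensorProduct

set_option backward.isDefEq.respectTransparency false

noncomputable section

universe u

namespace Pool.Agent.W513.Mod

open Pool.Agent.W417.MW (not_AS integral_BB exists_field RR_facts diffExp_of_open diffExp_Spec
  etale_BB length_BB)

open Pool.Agent.W363.MW (P1_charts smooth_BB)

variable {K : Type u} [Field K]

lemma uw (K : Type u) [Field K] : (uR K + 1) * wR K = 1 := by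
  have h := IsLocalization.Away.mul_invSelf (S := RR K) (Polynomial.X + 1 : Polynomial K)
  rw [map_add, map_one] at h
  exact h

lemma hqu_of {q : RR K}
    (hq : q ∈ ({uR K, uR K ^ 2 + uR K, uR K * wR K ^ 2} : Set (RR K))) (e : RR K →ₐ[K] K)
    (h : e q = 0) : e (uR K) = 0 := by
  have h1 : (e (uR K) + 1) * e (wR K) = 1 := by
    rw [← map_one e, ← map_add, ← map_mul, uw]
  rcases hq with rfl | rfl | rfl
  · exact h
  · rw [map_add, map_pow] at h
    have h2 : e (uR K) * (e (uR K) + 1) = 0 := by linear_combination h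
    rcases mul_eq_zero.1 h2 with h3 | h3
    · exact h3
    · rw [h3, zero_mul] at h1
      exact absurd h1 zero_ne_one
  · rw [map_mul, map_pow] at h
    rcases mul_eq_zero.1 h with h3 | h3
    · exact h3
    · rw [pow_eq_zero_iff two_ne_zero] at h3
      rw [h3, mul_zero] at h1
      exact absurd h1 zero_ne_one

lemma q_mem₀ : (uR K ^ 2 + uR K) ∈ ({uR K, uR K ^ 2 + uR K, uR K * wR K ^ 2} : Set (RR K)) :=
  Or.inr (Or.inl rfl)

lemma q_mem₁ : uR K ∈ ({uR K, uR K ^ 2 + uR K, uR K * wR K ^ 2} : Set (RR K)) :=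
  Or.inl rfl

lemma q_mem₂ : uR K * wR K ^ 2 ∈ ({uR K, uR K ^ 2 + uR K, uR K * wR K ^ 2} : Set (RR K)) :=
  Or.inr (Or.inr rfl)

variable [IsAlgClosed K] [CharP K 2]

/-- the cover given by the data -/
theorem exists_cover (dt : Dat K) : ∃ D : Tuple P4 (Spec (.of K)), IsCover K {4, 4, 4} D ∧
    ∃ b : Fin 3 → (Spec (.of K) ⟶ D.X), ∀ g : P4, g ≠ 1 → ∀ y : Spec (.of K) ⟶ D.Y,
      FixPt D g (𝟙 _) y → ∃ c, chi (dt.n c) g = 0 ∧ y ≫ D.π = b c := by
  obtain ⟨p⟩ := exists_pack dt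
  obtain ⟨hdomR, hicR, hnoeth, ⟨e₀, he₀, -⟩, -, hfrac, hq⟩ := RR_facts K
  refine ⟨p.D, p.isCover dt.hmn e₀ he₀ (fun c => hqu_of (dt.hq c))
    (fun c => (hq _ (dt.hq c)).2.1 e₀ he₀)
    (fun c => mem_nonZeroDivisors_of_ne_zero (hq _ (dt.hq c)).1.ne_zero)
    (fun c => etale_BB _ _) (fun c => ?_),
    fun c => Spec.map (CommRingCat.ofHom (Pi.evalRingHom (fun _ => K) c)) ≫ p.i,
    fun g hg y hy => p.fixed dt.hmn (fun c => hqu_of (dt.hq c)) hg y hy.1 hy.2⟩
  have := p.dom c
  exact smooth_BB _ _ (hq _ (dt.hq c)).2.2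

lemma hn_of (c : Fin 3) (φ : RR K →ₐ[K] KK K) (hφ : φ (uR K) = uK K c) {q : RR K}
    (hq : q ∈ ({uR K, uR K ^ 2 + uR K, uR K * wR K ^ 2} : Set (RR K))) (r : RR K) (h : KK K)
    (hh : φ q * h = 1 + φ q * φ r) (g : KK K) : g ^ 2 + g ≠ h := by
  obtain ⟨hdomR, hicR, -, -, -, hfrac, hq'⟩ := RR_facts K
  rintro rfl
  let _ := (φ : RR K →+* KK K).toAlgebra
  have : IsFractionRing (RR K) (KK K) := hfrac c _ hφ (fun x => φ.commutes x)
  refine not_AS (R := RR K) (K₀ := KK K) q r (hq' q hq).1 g ?_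
  rw [map_mul]
  exact hh

lemma x_ne (K : Type u) [Field K] : xK K ≠ 0 := by
  intro h
  rw [xK, ← map_zero (algebraMap (Polynomial K) (KK K))] at h
  exact Polynomial.X_ne_zero (IsFractionRing.injective (Polynomial K) (KK K) h)

lemma x1_ne (K : Type u) [Field K] : xK K + 1 ≠ 0 := by
  have h : xK K + 1 = algebraMap (Polynomial K) (KK K) (Polynomial.X + 1) := by
    rw [map_add, map_one, xK]
  intro h0
  rw [h, ← map_zero (algebraMap (Polynomial K) (KK K))] at h0
  have h1 := IsFractionRing.injective (Polynomial K) (KK K) h0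
  rw [← Polynomial.C_1] at h1
  exact Polynomial.X_add_C_ne_zero 1 h1

omit [IsAlgClosed K] in
lemma two_KK : (2 : KK K) = 0 := CharP.cast_eq_zero (KK K) 2

lemma phi_w {K : Type u} [Field K] (φ : RR K →ₐ[K] KK K) :
    (φ (uR K) + 1) * φ (wR K) = 1 := by
  rw [← map_one φ, ← map_add, ← map_mul, uw]

lemma xx_ne (K : Type u) [Field K] : xK K ^ 2 + xK K ≠ 0 := by
  have : xK K ^ 2 + xK K = xK K * (xK K + 1) := by ring
  rw [this]
  exact mul_ne_zero (x_ne K) (x1_ne K)

/-- functions for the cover of type (2, 1, 0) -/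
def hA (K : Type u) [Field K] : Fin 3 → KK K :=
  ![1 / (xK K ^ 2 + xK K), xK K, 1 / (xK K ^ 2 + xK K) + xK K]

/-- functions for the cover of type (1, 1, 1) -/
def hB (K : Type u) [Field K] : Fin 3 → KK K :=
  ![xK K + 1 / xK K, xK K + 1 / (xK K + 1), 1 / (xK K ^ 2 + xK K)]

/-- the cover of type (2, 1, 0) -/
def datA (K : Type u) [Field K] [IsAlgClosed K] [CharP K 2] : Dat K where
  h := hA K
  hh := rfl
  hn := by
    obtain ⟨w, φ, i, -, -, -, hφ, -⟩ := P1_charts K
    have hx := x_ne K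
    have hx1 := x1_ne K
    have hxx := xx_ne K
    intro n
    fin_cases n
    · refine hn_of 0 (φ 0) (hφ 0) q_mem₀ 0 _ ?_
      rw [map_add, map_pow, hφ 0, map_zero]
      simp [hA, uK, hxx]
    · refine hn_of 2 (φ 2) (hφ 2) q_mem₁ 0 _ ?_
      rw [hφ 2, map_zero]
      simp [hA, uK, hx]
    · refine hn_of 0 (φ 0) (hφ 0) q_mem₀ (uR K) _ ?_
      rw [map_add, map_pow, hφ 0]
      simp only [hA, uK]
      change (xK K ^ 2 + xK K) * (1 / (xK K ^ 2 + xK K) + xK K) =
        1 + (xK K ^ 2 + xK K) * xK K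
      field_simp
  m := ![0, 0, 1]
  n := ![1, 1, 0]
  hmn := by decide
  q := ![uR K ^ 2 + uR K, uR K ^ 2 + uR K, uR K]
  d := ![uR K, uR K + 1, uR K ^ 2 * wR K]
  hq := by
    intro c
    fin_cases c
    · exact q_mem₀
    · exact q_mem₀
    · exact q_mem₁
  hqh := by
    intro c φ hφ
    have h2 : (2 : KK K) = 0 := two_KK
    have hx := x_ne K
    have hx1 := x1_ne K
    have hxx := xx_ne K
    fin_cases c
    · change φ (uR K) = xK K at hφ
      change φ (uR K ^ 2 + uR K) * (1 / (xK K ^ 2 + xK K)) = 1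
      rw [map_add, map_pow, hφ]
      field_simp
    · change φ (uR K) = xK K + 1 at hφ
      change φ (uR K ^ 2 + uR K) * (1 / (xK K ^ 2 + xK K)) = 1
      rw [map_add, map_pow, hφ]
      have : (xK K + 1) ^ 2 + (xK K + 1) = xK K ^ 2 + xK K := by linear_combination (xK K + 1) * h2
      rw [this]
      field_simp
    · change φ (uR K) = (xK K)⁻¹ at hφ
      change φ (uR K) * xK K = 1
      rw [hφ]
      field_simp
  hdh := by
    intro c φ hφ
    have h2 : (2 : KK K) = 0 := two_KK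
    have hx := x_ne K
    have hx1 := x1_ne K
    have hxx := xx_ne K
    have hw := phi_w φ
    fin_cases c
    · exact hφ
    · change φ (uR K) = xK K + 1 at hφ
      change φ (uR K + 1) = xK K
      rw [map_add, map_one, hφ]
      linear_combination h2
    · change φ (uR K) = (xK K)⁻¹ at hφ
      change φ (uR K ^ 2 * wR K) = 1 / (xK K ^ 2 + xK K)
      rw [map_mul, map_pow]
      rw [hφ] at hw ⊢
      have h3 : (xK K + 1) * φ (wR K) = xK K := by
        field_simp at hw
        linear_combination hw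
      rw [eq_div_iff hxx]
      field_simp
      linear_combination h3

/-- the cover of type (1, 1, 1) -/
def datB (K : Type u) [Field K] [IsAlgClosed K] [CharP K 2] : Dat K where
  h := hB K
  hh := by
    have h2 : (2 : KK K) = 0 := two_KK
    have hx := x_ne K
    have hx1 := x1_ne K
    have hxx := xx_ne K
    change 1 / (xK K ^ 2 + xK K) = xK K + 1 / xK K + (xK K + 1 / (xK K + 1))
    rw [div_eq_iff hxx]
    field_simp
    linear_combination (-(xK K ^ 3 + xK K ^ 2 + xK K)) * h2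
  hn := by
    obtain ⟨w, φ, i, -, -, -, hφ, -⟩ := P1_charts K
    have h2 : (2 : KK K) = 0 := two_KK
    have hx := x_ne K
    have hx1 := x1_ne K
    have hxx := xx_ne K
    intro n
    fin_cases n
    · refine hn_of 2 (φ 2) (hφ 2) q_mem₂ 0 _ ?_
      have hw := phi_w (φ 2)
      have hφ2 : φ 2 (uR K) = (xK K)⁻¹ := hφ 2
      change φ 2 (uR K * wR K ^ 2) * (xK K + 1 / xK K) = 1 + φ 2 (uR K * wR K ^ 2) * φ 2 0
      rw [map_zero, mul_zero, add_zero, map_mul, map_pow]
      rw [hφ2] at hw ⊢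
      have h3 : (xK K + 1) * φ 2 (wR K) = xK K := by
        field_simp at hw
        linear_combination hw
      field_simp
      have h4 : xK K ^ 2 = (xK K + 1) ^ 2 * φ 2 (wR K) ^ 2 := by rw [← mul_pow, h3]
      linear_combination (-1 : KK K) * h4 - xK K * φ 2 (wR K) ^ 2 * h2
    · refine hn_of 1 (φ 1) (hφ 1) q_mem₀ (uR K + 1 + wR K) _ ?_
      have hw := phi_w (φ 1)
      have hφ2 : φ 1 (uR K) = xK K + 1 := hφ 1
      change φ 1 (uR K ^ 2 + uR K) * (xK K + 1 / (xK K + 1)) =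
        1 + φ 1 (uR K ^ 2 + uR K) * φ 1 (uR K + 1 + wR K)
      rw [map_add, map_pow, map_add, map_add, map_one]
      rw [hφ2] at hw ⊢
      have h3 : xK K * φ 1 (wR K) = 1 := by linear_combination hw - φ 1 (wR K) * h2
      have h4 : (xK K + 1) * (1 / (xK K + 1)) = 1 := by field_simp
      linear_combination (xK K + 2) * h4 - (xK K + 3) * h3 +
        (-(xK K) ^ 2 - 3 * xK K - 3 - φ 1 (wR K)) * h2
    · refine hn_of 0 (φ 0) (hφ 0) q_mem₀ 0 _ ?_
      rw [map_add, map_pow, hφ 0, map_zero]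
      simp [hB, uK, hxx]
  m := ![2, 2, 0]
  n := ![1, 0, 2]
  hmn := by decide
  q := ![uR K ^ 2 + uR K, uR K ^ 2 + uR K, uR K * wR K ^ 2]
  d := ![uR K + wR K, uR K + 1 + wR K, uR K ^ 2 * wR K]
  hq := by
    intro c
    fin_cases c
    · exact q_mem₀
    · exact q_mem₀
    · exact q_mem₂
  hqh := by
    intro c φ hφ
    have h2 : (2 : KK K) = 0 := two_KK
    have hx := x_ne K
    have hx1 := x1_ne K
    have hxx := xx_ne K
    have hw := phi_w φ
    fin_cases c
    · change φ (uR K) = xK K at hφ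
      change φ (uR K ^ 2 + uR K) * (1 / (xK K ^ 2 + xK K)) = 1
      rw [map_add, map_pow, hφ]
      field_simp
    · change φ (uR K) = xK K + 1 at hφ
      change φ (uR K ^ 2 + uR K) * (1 / (xK K ^ 2 + xK K)) = 1
      rw [map_add, map_pow, hφ]
      have : (xK K + 1) ^ 2 + (xK K + 1) = xK K ^ 2 + xK K := by linear_combination (xK K + 1) * h2
      rw [this]
      field_simp
    · change φ (uR K) = (xK K)⁻¹ at hφ
      change φ (uR K * wR K ^ 2) * (xK K + 1 / xK K) = 1
      rw [map_mul, map_pow]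
      rw [hφ] at hw ⊢
      have h3 : (xK K + 1) * φ (wR K) = xK K := by
        field_simp at hw
        linear_combination hw
      field_simp
      have h4 : xK K ^ 2 = (xK K + 1) ^ 2 * φ (wR K) ^ 2 := by rw [← mul_pow, h3]
      linear_combination (-1 : KK K) * h4 - xK K * φ (wR K) ^ 2 * h2
  hdh := by
    intro c φ hφ
    have h2 : (2 : KK K) = 0 := two_KK
    have hx := x_ne K
    have hx1 := x1_ne K
    have hxx := xx_ne K
    have hw := phi_w φ
    fin_cases c
    · change φ (uR K) = xK K at hφ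
      change φ (uR K + wR K) = xK K + 1 / (xK K + 1)
      rw [map_add, hφ]
      rw [hφ] at hw
      congr 1
      rw [eq_div_iff hx1]
      linear_combination hw
    · change φ (uR K) = xK K + 1 at hφ
      change φ (uR K + 1 + wR K) = xK K + 1 / xK K
      rw [map_add, map_add, map_one, hφ]
      rw [hφ] at hw
      have h3 : φ (wR K) = 1 / xK K := by
        rw [eq_div_iff hx]
        linear_combination hw - φ (wR K) * h2
      rw [h3]
      linear_combination h2
    · change φ (uR K) = (xK K)⁻¹ at hφ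
      change φ (uR K ^ 2 * wR K) = 1 / (xK K ^ 2 + xK K)
      rw [map_mul, map_pow]
      rw [hφ] at hw ⊢
      have h3 : (xK K + 1) * φ (wR K) = xK K := by
        field_simp at hw
        linear_combination hw
      rw [eq_div_iff hxx]
      field_simp
      linear_combination h3

lemma chi_11 : ∃ g : P4, g ≠ 1 ∧ chi 0 g ≠ 0 ∧ chi 1 g ≠ 0 := by
  decide

/-- a cover in which not all elements have fixed points -/
theorem exA (K : Type u) [Field K] [IsAlgClosed K] [CharP K 2] :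
    ∃ D : Tuple P4 (Spec (.of K)), IsCover K {4, 4, 4} D ∧ ¬ ∀ g : P4, g ≠ 1 → HasFix g D := by
  obtain ⟨D, hD, b, hb⟩ := exists_cover (datA K)
  refine ⟨D, hD, fun h => ?_⟩
  obtain ⟨g, hg, h0, h1⟩ := chi_11
  obtain ⟨y, hy⟩ := h g hg
  obtain ⟨c, hc, -⟩ := hb g hg y hy
  have hn : ∀ c, (datA K).n c = 0 ∨ (datA K).n c = 1 := by
    intro c
    change (![1, 1, 0] : Fin 3 → Fin 3) c = 0 ∨ (![1, 1, 0] : Fin 3 → Fin 3) c = 1
    revert c
    decide
  rcases hn c with h2 | h2 <;> rw [h2] at hc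
  · exact h0 hc
  · exact h1 hc

/-- a cover in which no element has fixed points above two different points -/
theorem exB (K : Type u) [Field K] [IsAlgClosed K] [CharP K 2] :
    ∃ D : Tuple P4 (Spec (.of K)), IsCover K {4, 4, 4} D ∧ ¬ ∃ g : P4, g ≠ 1 ∧ HasFix2 g D := by
  obtain ⟨D, hD, b, hb⟩ := exists_cover (datB K)
  refine ⟨D, hD, ?_⟩
  rintro ⟨g, hg, y, y', hy, hy', hne⟩
  obtain ⟨c, hc, hyc⟩ := hb g hg y hy
  obtain ⟨c', hc', hyc'⟩ := hb g hg y' hy'
  have hcc : c ≠ c' := by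
    rintro rfl
    exact hne (hyc.trans hyc'.symm)
  have hn : (datB K).n c ≠ (datB K).n c' := by
    have h : ∀ c c' : Fin 3, c ≠ c' →
        (![1, 0, 2] : Fin 3 → Fin 3) c ≠ (![1, 0, 2] : Fin 3 → Fin 3) c' := by decide
    exact h c c' hcc
  exact hg (chi_ext hn (hc.trans (chi_one _).symm) (hc'.trans (chi_one _).symm))

/-- The moduli space is reducible. -/
theorem main (k : Type u) [Field k] [IsAlgClosed k] [CharP k 2] :
    Nonempty (Space k P4 {4, 4, 4}) ∧ ¬ IrreducibleSpace (Space k P4 {4, 4, 4}) ∧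
    ∃ Z W : Set (Space k P4 {4, 4, 4}), IsClosed Z ∧ IsClosed W ∧ Z ∪ W = Set.univ ∧
      Z ≠ Set.univ ∧ W ≠ Set.univ ∧ ∀ (α : P4 ≃* P4) (p : Pt k P4 {4, 4, 4}),
        (Space.mk (p.relabel α) ∈ Z ↔ Space.mk p ∈ Z) ∧
        (Space.mk (p.relabel α) ∈ W ↔ Space.mk p ∈ W) := by
  obtain ⟨DA, hA, hA'⟩ := exA k
  obtain ⟨DB, hB, hB'⟩ := exB k
  let pA : Pt k P4 {4, 4, 4} := { K := k, str := 𝟙 _, D := DA, cover := hA }
  let pB : Pt k P4 {4, 4, 4} := { K := k, str := 𝟙 _, D := DB, cover := hB }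
  have hU : ZAll k P4 {4, 4, 4} ∪ ZTwo k P4 {4, 4, 4} = Set.univ := union_eq (by decide)
  have hZ : ZAll k P4 {4, 4, 4} ≠ Set.univ := fun h => hA' ((mk_ZAll pA).1 (h ▸ Set.mem_univ _))
  have hW : ZTwo k P4 {4, 4, 4} ≠ Set.univ := fun h => hB' ((mk_ZTwo pB).1 (h ▸ Set.mem_univ _))
  refine ⟨⟨Space.mk pA⟩, fun hirr => ?_, _, _, isClosed_ZAll, isClosed_ZTwo, hU, hZ, hW,
    fun α p => ⟨relabel_ZAll α p, relabel_ZTwo α p⟩⟩
  have h1 := isPreirreducible_iff_isClosed_union_isClosed.1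
    (IrreducibleSpace.isIrreducible_univ (Space k P4 {4, 4, 4})).2 _ _
    (isClosed_ZAll (k := k) (P := P4) (η := {4, 4, 4}))
    (isClosed_ZTwo (k := k) (P := P4) (η := {4, 4, 4})) (by rw [hU])
  rcases h1 with h1 | h1
  · exact hZ (Set.univ_subset_iff.1 h1)
  · exact hW (Set.univ_subset_iff.1 h1)

end Pool.Agent.W513.Mod
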